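import Pool.Agent.Helper7.AFT.Base

/-!
Eigenspaces of a Weil structure in `F^0`; the Weil classes of a balanced Weil structure are Hodge
classes.
-/

namespace Pool.Agent.Helper7.AFT

open Module Pool.Agent.GPC Pool.Agent.Helper7 Pool.Agent.Helper39.AF

variable {X : AbVar} {d : ℚ} {J : X.H1 → X.H1}

/-- the eigenspace in `F^0` as a set -/
lemma mem_filEigen (hJ : IsLinearMap ℂ J) (z : ℂ) (v : X.H1) :
    v ∈ X.filEigen J z ↔ J v = z • v ∧ X.IsFil v := by
  refine ⟨fun h => ?_, fun h => Submodule.subset_span h⟩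
  unfold AbVar.filEigen at h
  induction h using Submodule.span_induction with
  | mem v hv => exact hv
  | zero => exact ⟨by rw [hJ.map_zero, smul_zero], fun _ => rfl⟩
  | add u v _ _ hu hv =>
    refine ⟨by rw [hJ.map_add, hu.1, hv.1, smul_add], fun a => ?_⟩
    rw [Pi.add_apply, hu.2 a, hv.2 a, add_zero]
  | smul c v _ hv =>
    refine ⟨by rw [hJ.map_smul, hv.1, smul_comm], fun a => ?_⟩
    rw [Pi.smul_apply, hv.2 a, smul_zero]

lemma z_ne {z : ℂ} (hd : 0 < d) (hz : z ^ 2 = -(d : ℂ)) : z ≠ 0 := by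
  rintro rfl
  have h1 : (d : ℂ) = 0 := by
    have h2 : (0 : ℂ) = -(d : ℂ) := by rw [← hz]; norm_num
    linear_combination h2
  exact hd.ne' (by exact_mod_cast h1)

/-- the component of a vector in the eigenspace for `z` -/
noncomputable def pz (J : X.H1 → X.H1) (z : ℂ) (v : X.H1) : X.H1 := (2 * z)⁻¹ • (J v + z • v)

lemma pz_eigen (hJ : IsLinearMap ℂ J) (hJ2 : ∀ v, J (J v) = (-(d : ℂ)) • v) {z : ℂ}
    (hz : z ^ 2 = -(d : ℂ)) (v : X.H1) : J (pz J z v) = z • pz J z v := by
  unfold pz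
  rw [hJ.map_smul, hJ.map_add, hJ.map_smul, hJ2, ← hz]
  module

lemma pz_fil (hJ : X.IsEnd J) {z : ℂ} (v : X.H1) (hv : X.IsFil v) : X.IsFil (pz J z v) := by
  intro a
  unfold pz
  rw [Pi.smul_apply, Pi.add_apply, Pi.smul_apply, hJ.hodge v hv a, hv a]
  simp

lemma pz_add {z : ℂ} (hz : z ≠ 0) (v : X.H1) : pz J z v + pz J (-z) v = v := by
  unfold pz
  have h1 : (2 * -z)⁻¹ = -(2 * z)⁻¹ := by
    rw [mul_neg, inv_neg]
  rw [h1]
  have h2 : (2 * z)⁻¹ * (2 * z) = 1 := inv_mul_cancel₀ (mul_ne_zero two_ne_zero hz)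
  have h3 : (2 * z)⁻¹ • (J v + z • v) + -(2 * z)⁻¹ • (J v + -z • v) =
      ((2 * z)⁻¹ * (2 * z)) • v := by
    module
  rw [h3, h2, one_smul]

/-- the space `F^0` -/
def filS (X : AbVar) : Submodule ℂ X.H1 where
  carrier := {v | X.IsFil v}
  add_mem' {u v} hu hv a := by rw [Pi.add_apply, hu a, hv a, add_zero]
  zero_mem' _ := rfl
  smul_mem' c v hv a := by rw [Pi.smul_apply, hv a, smul_zero]

lemma mem_filS (v : X.H1) : v ∈ filS X ↔ X.IsFil v := Iff.rfl

lemma finrank_filS (X : AbVar) : finrank ℂ (filS X) = X.g := by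
  let e : filS X ≃ₗ[ℂ] (Fin X.g → ℂ) :=
    { toFun := fun v a => v.1 (.inr a)
      map_add' := fun _ _ => rfl
      map_smul' := fun _ _ => rfl
      invFun := fun w => ⟨Sum.elim (fun _ => 0) w, fun _ => rfl⟩
      left_inv := fun v => by
        apply Subtype.ext
        funext s
        cases s with
        | inl a => exact (v.2 a).symm
        | inr a => rfl
      right_inv := fun _ => rfl }
  rw [e.finrank_eq, finrank_fintype_fun_eq_card, Fintype.card_fin]

lemma finrank_add (hJE : X.IsEnd J) (hJ2 : ∀ v, J (J v) = (-(d : ℂ)) • v) {z : ℂ} (hz0 : z ≠ 0)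
    (hz : z ^ 2 = -(d : ℂ)) :
    finrank ℂ (X.filEigen J z) + finrank ℂ (X.filEigen J (-z)) = X.g := by
  have hz' : (-z) ^ 2 = -(d : ℂ) := by rw [neg_sq, hz]
  have hl := hJE.linear
  have h1 : X.filEigen J z ⊔ X.filEigen J (-z) = filS X := by
    apply le_antisymm
    · rw [sup_le_iff]
      exact ⟨fun v hv => ((mem_filEigen hl z v).mp hv).2, fun v hv => ((mem_filEigen hl _ v).mp hv).2⟩
    · intro v hv
      rw [← pz_add (J := J) hz0 v]
      exact Submodule.add_mem_sup
        ((mem_filEigen hl z _).mpr ⟨pz_eigen hl hJ2 hz v, pz_fil hJE v hv⟩)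
        ((mem_filEigen hl _ _).mpr ⟨pz_eigen hl hJ2 hz' v, pz_fil hJE v hv⟩)
  have h2 : X.filEigen J z ⊓ X.filEigen J (-z) = ⊥ := by
    rw [eq_bot_iff]
    intro v hv
    have h3 := ((mem_filEigen hl z v).mp hv.1).1
    have h4 := ((mem_filEigen hl _ v).mp hv.2).1
    rw [h3] at h4
    have h5 : (2 * z) • v = 0 := by
      have : (2 * z) • v = z • v - (-z) • v := by module
      rw [this, h4, sub_self]
    exact (smul_eq_zero.mp h5).resolve_left (mul_ne_zero two_ne_zero hz0)
  have h3 := Submodule.finrank_sup_add_finrank_inf_eq (X.filEigen J z) (X.filEigen J (-z))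
  rw [h1, h2, finrank_bot, add_zero, finrank_filS] at h3
  exact h3.symm

/-- a Weil structure which is not balanced has a line as eigenspace in `F^0` -/
theorem exists_line (hX : X.g = 4) (hJ : X.IsWeilStructure d J) (hb : ¬ X.IsBalanced d J) :
    ∃ z : ℂ, z ^ 2 = -(d : ℂ) ∧ finrank ℂ (X.filEigen J z) = 1 := by
  obtain ⟨hd, hJE, hJ2, hns, -⟩ := hJ
  unfold AbVar.IsBalanced at hb
  push Not at hb
  obtain ⟨z, hz, hne⟩ := hb
  have hz0 := z_ne hd hz
  have hz' : (-z) ^ 2 = -(d : ℂ) := by rw [neg_sq, hz]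
  have h1 := (finrank_add hJE hJ2 hz0 hz).trans hX
  have hsc : ∀ y : ℂ, y ^ 2 = -(d : ℂ) → finrank ℂ (X.filEigen J y) ≠ 4 := by
    intro y hy h4
    apply hns
    refine ⟨y, fun v hv => ?_⟩
    have h5 : X.filEigen J y = filS X := by
      apply Submodule.eq_of_le_of_finrank_eq
      · exact fun v hv => ((mem_filEigen hJE.linear y v).mp hv).2
      · exact h4.trans (hX.symm.trans (finrank_filS X).symm)
    have h6 : v ∈ X.filEigen J y := by rw [h5]; exact hv
    exact ((mem_filEigen hJE.linear y v).mp h6).1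
  have h2 := hsc z hz
  have h3 := hsc (-z) hz'
  by_cases h4 : finrank ℂ (X.filEigen J z) = 1
  · exact ⟨z, hz, h4⟩
  · exact ⟨-z, hz', by omega⟩

/-- the Weil classes of a balanced Weil structure lie in `F^2` -/
theorem inFil_of_balanced (hJ : X.IsWeilStructure d J) (hb : X.IsBalanced d J)
    (w : X.Class (2 * 2))
    (hw : ∀ v r s, w (Function.update v r (J (v r))) = w (Function.update v s (J (v s)))) :
    X.IsInFil 2 w := by
  obtain ⟨hd, hJE, hJ2, -, -⟩ := hJ
  have hl := hJE.linear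
  intro v hv
  obtain ⟨S, hS, hSf⟩ := hv
  obtain ⟨z, hz⟩ : ∃ z : ℂ, z ^ 2 = -(d : ℂ) := IsAlgClosed.exists_pow_nat_eq _ two_pos
  have hz0 := z_ne hd hz
  have hz' : (-z) ^ 2 = -(d : ℂ) := by rw [neg_sq, hz]
  -- three eigenvectors in `F^0` with the same eigenvalue
  have hdep : ∀ (y : ℂ), y ^ 2 = -(d : ℂ) → ∀ u : Fin (2 * 2) → X.H1,
      (∀ r ∈ S, u r ∈ X.filEigen J y) → w u = 0 := by
    intro y hy u hu
    apply w.map_linearDependent
    intro hli
    have h1 : LinearIndependent ℂ (fun r : S => u r.1) := hli.comp _ Subtype.val_injective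
    have h2 : LinearIndependent ℂ (fun r : S => (⟨u r.1, hu r.1 r.2⟩ : X.filEigen J y)) :=
      LinearIndependent.of_comp (X.filEigen J y).subtype h1
    have h3 := h2.fintype_card_le_finrank
    rw [hb y hy, Fintype.card_coe] at h3
    omega
  -- vectors with components in different eigenspaces
  have hmix : ∀ u : Fin (2 * 2) → X.H1, (∃ r s, J (u r) = z • u r ∧ J (u s) = (-z) • u s) →
      w u = 0 := by
    rintro u ⟨r, s, hr, hs⟩
    have h1 := hw u r s
    rw [hr, hs] at h1
    have h2 : w (Function.update u r (z • u r)) = z * w u := by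
      rw [w.map_update_smul, Function.update_eq_self, smul_eq_mul]
    have h3 : w (Function.update u s ((-z) • u s)) = (-z) * w u := by
      rw [w.map_update_smul, Function.update_eq_self, smul_eq_mul]
    rw [h2, h3] at h1
    have h4 : (2 * z) * w u = 0 := by linear_combination h1
    exact (mul_eq_zero.mp h4).resolve_left (mul_ne_zero two_ne_zero hz0)
  have h1 : w v = ∑ s : Finset (Fin (2 * 2)), w (s.piecewise (fun r => pz J z (v r))
      (fun r => pz J (-z) (v r))) := by
    rw [← AlternatingMap.coe_multilinearMap, ← MultilinearMap.map_add_univ]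
    congr 1
    funext r
    exact (pz_add hz0 (v r)).symm
  rw [h1]
  refine Finset.sum_eq_zero fun s _ => ?_
  by_cases h2 : s = Finset.univ
  · subst h2
    apply hdep z hz
    intro r hr
    rw [Finset.piecewise_eq_of_mem _ _ _ (Finset.mem_univ r)]
    exact (mem_filEigen hl z _).mpr ⟨pz_eigen hl hJ2 hz _, pz_fil hJE _ (hSf r hr)⟩
  by_cases h3 : s = ∅
  · subst h3
    apply hdep (-z) hz'
    intro r hr
    rw [Finset.piecewise_eq_of_notMem _ _ _ (Finset.notMem_empty r)]
    exact (mem_filEigen hl _ _).mpr ⟨pz_eigen hl hJ2 hz' _, pz_fil hJE _ (hSf r hr)⟩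
  · apply hmix
    obtain ⟨r, hr⟩ := Finset.nonempty_iff_ne_empty.mpr h3
    obtain ⟨r', hr'⟩ : ∃ r', r' ∉ s := by
      by_contra hcon
      push Not at hcon
      exact h2 (Finset.eq_univ_iff_forall.mpr hcon)
    refine ⟨r, r', ?_, ?_⟩
    · rw [Finset.piecewise_eq_of_mem _ _ _ hr]
      exact pz_eigen hl hJ2 hz _
    · rw [Finset.piecewise_eq_of_notMem _ _ _ hr']
      exact pz_eigen hl hJ2 hz' _

end Pool.Agent.Helper7.AFT
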