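import Pool.Agent.Helper7.AFT.Bal
import Pool.Agent.Helper7.AFD.NotScalar
import Pool.Agent.Helper39.AFD.Dich

/-!
Threefold times elliptic curve with the same imaginary quadratic field: there is a balanced Weil
structure.
-/

namespace Pool.Agent.Helper7.AFT

open Module NumberField Pool.Agent.GPC Pool.Agent.Helper7 Pool.Agent.Helper39.AF
open Pool.Agent.Helper39.AFD

set_option linter.unusedSectionVars false

/-- the generator of the quadratic field is skew -/
lemma quad_skew {A : AbVar} {d : ℚ} {J : A.H1 → A.H1} (HQ : A.IsQuadBy d J) (hg : 0 < A.g)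
    (u v : A.H1) : A.pol (J u) v = - A.pol u (J v) := by
  obtain ⟨K, _, _, hCM, ρ, x, C, h2, hx⟩ := HQ.exists_cm hg
  obtain ⟨F, hF, -⟩ := nonempty_UFh A K ρ C A.g (by rw [h2])
  have hFx : ∀ v, F.ρ x v = J v := fun v => by rw [hF, hx]
  have hsq : ∀ (ν : K →+* ℂ), (ν x) ^ 2 = -(d : ℂ) := by
    intro ν
    have h1 := HQ.sq (F.e ν ⟨0, hg⟩)
    rw [← hFx, ← hFx, F.rho_e, map_smul, F.rho_e, smul_smul, ← sub_eq_zero, ← sub_smul,
      smul_eq_zero] at h1
    rw [pow_two]
    exact sub_eq_zero.mp (h1.resolve_right (Pool.Agent.Helper24.e_ne F ν ⟨0, hg⟩))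
  have hcc : F.cc x = - x := by
    obtain ⟨ν⟩ : Nonempty (K →+* ℂ) := inferInstance
    apply ν.injective
    rw [F.hcc, map_neg, conj_of_sq HQ.pos (hsq ν)]
  have h1 := F.hros x u v
  rw [hcc, map_neg, LinearMap.neg_apply, hFx, hFx, map_neg] at h1
  exact h1

/-- the other generator -/
lemma quad_neg {A : AbVar} {d : ℚ} {J : A.H1 → A.H1} (HQ : A.IsQuadBy d J) :
    A.IsQuadBy d (fun v => - J v) := by
  have hE : A.IsEnd (fun v => - J v) := by
    refine ⟨⟨fun u v => ?_, fun c v => ?_⟩, fun v hv => ?_, fun v hv => ?_, fun v hv => ?_⟩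
    · rw [HQ.endo.linear.map_add]; abel
    · rw [HQ.endo.linear.map_smul, smul_neg]
    · have h := (pData A).Q.neg_mem ((mem_pData_Q A _).mpr (HQ.endo.betti v hv))
      exact (mem_pData_Q A _).mp h
    · intro s
      exact (HQ.endo.deRham v hv s).neg
    · intro a
      show - J v (.inl a) = 0
      rw [HQ.endo.hodge v hv a, neg_zero]
  refine ⟨HQ.pos, hE, fun v => ?_, fun f hf => ?_⟩
  · rw [HQ.endo.linear.map_neg, neg_neg, HQ.sq]
  · obtain ⟨a, b, h⟩ := HQ.all f hf
    refine ⟨a, -b, fun v => ?_⟩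
    rw [h]
    push_cast
    module

lemma filEigen_neg {A : AbVar} (J : A.H1 → A.H1) (z : ℂ) :
    A.filEigen (fun v => - J v) z = A.filEigen J (-z) := by
  unfold AbVar.filEigen
  congr 1
  ext v
  constructor
  · rintro ⟨h1, h2⟩
    refine ⟨?_, h2⟩
    have h3 : - J v = z • v := h1
    rw [neg_smul, ← h3, neg_neg]
  · rintro ⟨h1, h2⟩
    refine ⟨?_, h2⟩
    show - J v = z • v
    rw [h1, neg_smul, neg_neg]

/-- the generator does not act by scalars on `F^0` -/
lemma quad_not_scalar {A : AbVar} {d : ℚ} {J : A.H1 → A.H1} (HQ : A.IsQuadBy d J) (hg : 2 ≤ A.g)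
    (z : ℂ) : finrank ℂ (A.filEigen J z) ≠ A.g := by
  intro h
  refine notScalarProp A HQ.isSimple hg d HQ.pos J HQ.endo HQ.sq (quad_skew HQ (by omega))
    ⟨z, fun v hv => ?_⟩
  have h5 : A.filEigen J z = filS A := by
    apply Submodule.eq_of_le_of_finrank_eq
    · exact fun v hv => ((mem_filEigen HQ.endo.linear z v).mp hv).2
    · rw [h, finrank_filS]
  have h6 : v ∈ A.filEigen J z := by rw [h5]; exact hv
  exact ((mem_filEigen HQ.endo.linear z v).mp h6).1

section product

variable {X : AbVar} {I : Type} [Fintype I] {A : I → AbVar} {n : I → ℕ} {Φ : X.H1 ≃ₗ[ℂ] H1 A n}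
  (hΦ : IsIsogeny X A n Φ)

include hΦ in
/-- the eigenspaces of a componentwise endomorphism -/
lemma finrank_diag (T : ∀ i, (A i).H1 → (A i).H1) (hT : ∀ i, (A i).IsEnd (T i)) (z : ℂ) :
    finrank ℂ (X.filEigen (fun v => Φ.symm (fun i m => T i (Φ v i m))) z) =
      ∑ i, n i * finrank ℂ ((A i).filEigen (T i) z) := by
  classical
  have hlin : IsLinearMap ℂ (fun v => Φ.symm (fun i m => T i (Φ v i m))) := by
    refine ⟨fun u v => ?_, fun c v => ?_⟩
    · rw [← map_add]
      congr 1
      funext i m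
      rw [map_add]
      exact (hT i).linear.map_add _ _
    · rw [← map_smul]
      congr 1
      funext i m
      rw [map_smul]
      exact (hT i).linear.map_smul _ _
  have hmem : ∀ v, v ∈ X.filEigen (fun v => Φ.symm (fun i m => T i (Φ v i m))) z ↔
      ∀ i m, Φ v i m ∈ (A i).filEigen (T i) z := by
    intro v
    rw [mem_filEigen hlin]
    constructor
    · rintro ⟨h1, h2⟩ i m
      rw [mem_filEigen (hT i).linear]
      refine ⟨?_, (hΦ.fil v).mp h2 i m⟩
      have h3 := congrArg Φ h1
      rw [Φ.apply_symm_apply, map_smul] at h3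
      exact congrFun (congrFun h3 i) m
    · intro h
      refine ⟨?_, (hΦ.fil v).mpr fun i m => ((mem_filEigen (hT i).linear z _).mp (h i m)).2⟩
      apply Φ.injective
      rw [Φ.apply_symm_apply, map_smul]
      funext i m
      exact ((mem_filEigen (hT i).linear z _).mp (h i m)).1
  let e : X.filEigen (fun v => Φ.symm (fun i m => T i (Φ v i m))) z ≃ₗ[ℂ]
      (∀ i, Fin (n i) → (A i).filEigen (T i) z) :=
    { toFun := fun v i m => ⟨Φ v.1 i m, (hmem v.1).mp v.2 i m⟩
      map_add' := fun u v => by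
        funext i m
        apply Subtype.ext
        show Φ (u.1 + v.1) i m = Φ u.1 i m + Φ v.1 i m
        rw [map_add]
        rfl
      map_smul' := fun c v => by
        funext i m
        apply Subtype.ext
        show Φ (c • v.1) i m = c • Φ v.1 i m
        rw [map_smul]
        rfl
      invFun := fun w => ⟨Φ.symm (fun i m => (w i m).1), by
        rw [hmem]
        intro i m
        rw [Φ.apply_symm_apply]
        exact (w i m).2⟩
      left_inv := fun v => by
        apply Subtype.ext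
        show Φ.symm (fun i m => Φ v.1 i m) = v.1
        exact Φ.symm_apply_apply v.1
      right_inv := fun w => by
        funext i m
        apply Subtype.ext
        show Φ (Φ.symm (fun i m => (w i m).1)) i m = (w i m).1
        rw [Φ.apply_symm_apply] }
  rw [e.finrank_eq, Module.finrank_pi_fintype]
  refine Finset.sum_congr rfl fun i _ => ?_
  rw [Module.finrank_pi_fintype, Finset.sum_const, Finset.card_univ, Fintype.card_fin,
    smul_eq_mul]

omit [Fintype I] in
lemma isFil_slot' [DecidableEq I] (i : I) (m : Fin (n i))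
    (u : (A i).H1) (hu : (A i).IsFil u) :
    IsFil A n (slotL n (κ := fun i => Fin (A i).g ⊕ Fin (A i).g) i m u) :=
  isFil_slot A n i m u hu

/-- the Weil structure given by generators of the quadratic fields of the factors -/
lemma weil_diag (hs : ∀ i, (A i).IsSimple)
    (hA : ∀ i j, i ≠ j → ∀ f, (A i).IsMor (A j) f → ∀ v, f v = 0) (hn : ∀ i, n i = 1) (p : I)
    (hp : 2 ≤ (A p).g) {d : ℚ} (T : ∀ i, (A i).H1 → (A i).H1) (HQ : ∀ i, (A i).IsQuadBy d (T i)) :
    IsWeilStructure A n d (fun v i m => T i (v i m)) := by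
  classical
  refine ⟨(HQ p).pos, Helper39.AF.isEndo_diag fun i => (HQ i).endo, fun v => ?_, ?_,
    Or.inl fun f hf v => ?_⟩
  · funext i m
    exact (HQ i).sq (v i m)
  · rintro ⟨c, hc⟩
    refine notScalarProp (A p) (hs p) hp d (HQ p).pos (T p) (HQ p).endo (HQ p).sq
      (quad_skew (HQ p) (by omega)) ⟨c, fun u hu => ?_⟩
    have h3 := hc _ (isFil_slot A n p ⟨0, by rw [hn]; exact one_pos⟩ u hu)
    have h4 := congrArg (fun v : H1 A n => v p ⟨0, by rw [hn]; exact one_pos⟩) h3
    simp only [Pi.smul_apply, slotL_self] at h4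
    exact h4
  · obtain ⟨S, hS, hfS⟩ := Helper39.AF.endo_diag hn hA hf
    funext i m
    show T i (f v i m) = f (fun i m => T i (v i m)) i m
    rw [hfS, hfS]
    exact (HQ i).comm (HQ i).endo (hS i) (v i m)

include hΦ in
/-- the balanced Weil structure on the product of a threefold and an elliptic curve -/
theorem exists_balanced (hs : ∀ i, (A i).IsSimple)
    (hA : ∀ i j, i ≠ j → ∀ f, (A i).IsMor (A j) f → ∀ v, f v = 0) (hn : ∀ i, n i = 1)
    (hc : ∀ d J, IsWeilStructure A n d J → ∀ s, X.IsEnd s → X.IsAdjoint s s →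
      ∀ v, J (Φ (s (Φ.symm v))) = Φ (s (Φ.symm (J v))))
    (p e : I) (hI : ∀ j, j = p ∨ j = e) (hp : (A p).g = 3) (he : (A e).g = 1) (d : ℚ)
    (hqp : (A p).IsQuadEnd d) (hqe : (A e).IsQuadEnd d) :
    ∃ J, X.IsWeilStructure d J ∧ X.IsBalanced d J := by
  classical
  have hpe : p ≠ e := by
    intro h
    rw [h, he] at hp
    omega
  have hd : 0 < d := hqp.1
  have hq : ∀ i, (A i).IsQuadEnd d := fun i => by
    rcases hI i with h | h
    · rw [h]; exact hqp
    · rw [h]; exact hqe
  choose j hjE hj2 hall using fun i => (hq i).2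
  have HQ : ∀ i, (A i).IsQuadBy d (j i) := fun i => ⟨hd, hjE i, hj2 i, hall i⟩
  have huniv : (Finset.univ : Finset I) = {p, e} := by
    ext i
    rcases hI i with h | h <;> simp [h]
  -- the eigenspaces on the product
  have hsum : ∀ (T : ∀ i, (A i).H1 → (A i).H1) (HT : ∀ i, (A i).IsQuadBy d (T i)) (z : ℂ),
      finrank ℂ (X.filEigen (fun v => Φ.symm (fun i m => T i (Φ v i m))) z) =
        finrank ℂ ((A p).filEigen (T p) z) + finrank ℂ ((A e).filEigen (T e) z) := by
    intro T HT z
    rw [finrank_diag hΦ T (fun i => (HT i).endo), huniv, Finset.sum_pair hpe, hn, hn, one_mul,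
      one_mul]
  obtain ⟨z, hz⟩ : ∃ z : ℂ, z ^ 2 = -(d : ℂ) := IsAlgClosed.exists_pow_nat_eq _ two_pos
  have hz0 := z_ne hd hz
  have hz' : (-z) ^ 2 = -(d : ℂ) := by rw [neg_sq, hz]
  have hzz : ∀ y : ℂ, y ^ 2 = -(d : ℂ) → y = z ∨ y = -z := by
    intro y hy
    have h3 : (y - z) * (y + z) = 0 := by linear_combination hy - hz
    rcases mul_eq_zero.mp h3 with h4 | h4
    · exact Or.inl (sub_eq_zero.mp h4)
    · exact Or.inr (eq_neg_of_add_eq_zero_left h4)
  -- balanced if the first eigenspace has dimension two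
  have hbal : ∀ (T : ∀ i, (A i).H1 → (A i).H1) (HT : ∀ i, (A i).IsQuadBy d (T i)),
      finrank ℂ ((A p).filEigen (T p) z) + finrank ℂ ((A e).filEigen (T e) z) = 2 →
      ∃ J, X.IsWeilStructure d J ∧ X.IsBalanced d J := by
    intro T HT h2
    refine ⟨_, weilStructure_back hΦ hc (weil_diag hs hA hn p (by omega) T HT), fun y hy => ?_⟩
    have h3 := finrank_add (HT p).endo (HT p).sq hz0 hz
    have h4 := finrank_add (HT e).endo (HT e).sq hz0 hz
    rw [hsum T HT y]
    rcases hzz y hy with rfl | rfl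
    · exact h2
    · omega
  have h3 := (finrank_add (HQ p).endo (HQ p).sq hz0 hz).trans hp
  have h4 := (finrank_add (HQ e).endo (HQ e).sq hz0 hz).trans he
  have h5 : finrank ℂ ((A p).filEigen (j p) z) ≠ 3 := fun h =>
    quad_not_scalar (HQ p) (by omega) z (h.trans hp.symm)
  have h6 : finrank ℂ ((A p).filEigen (j p) (-z)) ≠ 3 := fun h =>
    quad_not_scalar (HQ p) (by omega) (-z) (h.trans hp.symm)
  by_cases h7 : finrank ℂ ((A p).filEigen (j p) z) + finrank ℂ ((A e).filEigen (j e) z) = 2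
  · exact hbal j HQ h7
  · obtain ⟨T, hTp, hTe⟩ : ∃ T : ∀ i, (A i).H1 → (A i).H1, (∀ i, i ≠ e → T i = j i) ∧
        (∀ i, i = e → T i = fun v => - j i v) :=
      ⟨fun i => if i = e then fun v => - j i v else j i, fun i hi => if_neg hi,
        fun i hi => if_pos hi⟩
    refine hbal T (fun i => ?_) ?_
    · by_cases hi : i = e
      · rw [hTe i hi]; exact quad_neg (HQ i)
      · rw [hTp i hi]; exact HQ i
    · rw [hTp p hpe, hTe e rfl, filEigen_neg]
      omega

/-- the quadratic field of an isogenous simple variety -/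
theorem quad_back (hΦ : IsIsogeny X A n Φ)
    (hA : ∀ i j, i ≠ j → ∀ f, (A i).IsMor (A j) f → ∀ v, f v = 0) (hn : ∀ i, n i = 1) (i : I)
    (hI : ∀ j, j = i) (d : ℚ) (hq : (A i).IsQuadEnd d) : X.IsQuadEnd d := by
  classical
  have hq' : ∀ j, (A j).IsQuadEnd d := fun j => by rw [hI j]; exact hq
  choose j hjE hj2 hall using fun i => (hq' i).2
  refine ⟨hq.1, fun v => Φ.symm (fun i m => j i (Φ v i m)),
    endo_back hΦ (Helper39.AF.isEndo_diag hjE), fun v => ?_, fun f hf => ?_⟩
  · apply Φ.injective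
    beta_reduce
    rw [Φ.apply_symm_apply, Φ.apply_symm_apply, map_smul]
    funext i m
    exact hj2 i _
  · obtain ⟨S, hS, hfS⟩ := Helper39.AF.endo_diag hn hA (endo_forth hΦ hf)
    obtain ⟨a, b, hab⟩ := hall i (S i) (hS i)
    refine ⟨a, b, fun v => ?_⟩
    apply Φ.injective
    rw [map_add, map_smul, map_smul, Φ.apply_symm_apply]
    funext l m
    have h1 := hfS (Φ v) l m
    rw [Φ.symm_apply_apply] at h1
    rw [h1]
    have hl := hI l
    subst hl
    exact hab _

end product

end Pool.Agent.Helper7.AFT
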