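import Pool.Agent.Helper7.AFT.Bal

/-!
Existence of frames.
-/

namespace Pool.Agent.Helper7.AFT

open Module Pool.Agent.GPC Pool.Agent.Helper7 Pool.Agent.Helper39.AF

theorem exists_frame (X : AbVar) (hX : X.g = 4) (d : ℚ) (J : X.H1 → X.H1)
    (hJ : X.IsWeilStructure d J) (z : ℂ) (hz : z ^ 2 = -(d : ℂ))
    (h1 : finrank ℂ (X.filEigen J z) = 1) : Nonempty (Frame X J z) := by
  classical
  have hW := hJ
  obtain ⟨hd, hJE, hJ2, -, -⟩ := hJ
  have hz0 := z_ne hd hz
  have hl := hJE.linear
  have hz' : (-z) ^ 2 = -(d : ℂ) := by rw [neg_sq, hz]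
  have hskew : ∀ u v, X.pol (J u) v = - X.pol u (J v) := by
    intro u v
    rw [weil_skew hW]
    have h : X.pol u (-J v) = - X.pol u (J v) := by
      rw [← pData_ψ, ← pData_ψ, map_neg]
    exact h
  -- the eigenspaces are isotropic
  have hiso : ∀ y : ℂ, y ≠ 0 → ∀ u v, J u = y • u → J v = y • v → X.pol u v = 0 := by
    intro y hy u v hu hv
    have h := hskew u v
    rw [hu, hv, ← pData_ψ, ← pData_ψ, map_smul, LinearMap.smul_apply, map_smul, smul_eq_mul,
      pData_ψ] at h
    have h2 : (2 * y) * X.pol u v = 0 := by linear_combination h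
    exact (mul_eq_zero.mp h2).resolve_left (mul_ne_zero two_ne_zero hy)
  -- the filtration is isotropic
  have hfil : ∀ u v, X.IsFil u → X.IsFil v → X.pol u v = 0 := by
    intro u v hu hv
    unfold AbVar.pol
    refine Finset.sum_eq_zero fun a _ => ?_
    rw [hu a, hv a]
    ring
  have h3 : finrank ℂ (X.filEigen J (-z)) = 3 := by
    have h := (finrank_add hJE hJ2 hz0 hz).trans hX
    omega
  obtain ⟨l, hl0, -⟩ := finrank_eq_one_iff'.mp h1
  obtain ⟨hlJ, hlF⟩ := (mem_filEigen hl z l.1).mp l.2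
  have hl0' : (l : X.H1) ≠ 0 := fun h => hl0 (Subtype.ext h)
  -- the vector `h 0`
  obtain ⟨w0, hw0⟩ : ∃ w, X.pol l w ≠ 0 := by
    by_contra h
    push Not at h
    apply hl0'
    apply (pData X).hψnd
    intro w
    rw [pData_ψ]
    exact h w
  have hpz : ∀ v w, J v = z • v → X.pol v (pz J (-z) w) = X.pol v w := by
    intro v w hv
    have h4 := pz_add (J := J) hz0 w
    have h5 : X.pol v (pz J z w + pz J (-z) w) = X.pol v (pz J z w) + X.pol v (pz J (-z) w) := by
      rw [← pData_ψ, ← pData_ψ, ← pData_ψ, map_add]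
    rw [h4, hiso z hz0 v _ hv (pz_eigen hl hJ2 hz w), zero_add] at h5
    exact h5.symm
  obtain ⟨h0, hh0, hl1⟩ : ∃ h0, J h0 = (-z) • h0 ∧ X.pol l h0 = 1 := by
    refine ⟨(X.pol l w0)⁻¹ • pz J (-z) w0, ?_, ?_⟩
    · rw [hl.map_smul, pz_eigen hl hJ2 hz' w0, smul_comm]
    · rw [← pData_ψ, map_smul, pData_ψ, hpz _ _ hlJ, smul_eq_mul, inv_mul_cancel₀ hw0]
  -- the vectors `h 1`, `h 2`, `h 3`
  obtain ⟨c⟩ : Nonempty (Basis (Fin 3) ℂ (X.filEigen J (-z))) := by
    have : Module.Finite ℂ (X.filEigen J (-z)) := inferInstance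
    exact ⟨(Module.finBasis ℂ (X.filEigen J (-z))).reindex (finCongr h3)⟩
  obtain ⟨h, hh⟩ : ∃ h : Fin 4 → X.H1, h = Fin.cons h0 (fun i => (c i : X.H1)) := ⟨_, rfl⟩
  have hh0' : h 0 = h0 := by rw [hh]; rfl
  have hhs : ∀ i : Fin 3, h i.succ = c i := by intro i; rw [hh]; rfl
  have hhJ : ∀ i, J (h i) = (-z) • h i := by
    intro i
    refine Fin.cases ?_ (fun i => ?_) i
    · rw [hh0', hh0]
    · rw [hhs]
      exact ((mem_filEigen hl _ _).mp (c i).2).1
  have hhF : ∀ i, i ≠ 0 → X.IsFil (h i) := by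
    intro i hi
    obtain ⟨j, rfl⟩ := Fin.exists_succ_eq.mpr hi
    rw [hhs]
    exact ((mem_filEigen hl _ _).mp (c j).2).2
  have hlh : ∀ i, X.pol l (h i) = if 0 = i then 1 else 0 := by
    intro i
    by_cases hi : i = 0
    · rw [hi, hh0', hl1, if_pos rfl]
    · rw [if_neg (Ne.symm hi)]
      exact hfil _ _ hlF (hhF i hi)
  have hli : LinearIndependent ℂ h := by
    rw [Fintype.linearIndependent_iff]
    intro g hg
    have hg0 : g 0 = 0 := by
      have h5 := congrArg (fun v => (pData X).ψ l v) hg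
      simp only [map_sum, map_smul, map_zero] at h5
      rw [Finset.sum_eq_single 0] at h5
      · rwa [pData_ψ, hlh, if_pos rfl, smul_eq_mul, mul_one] at h5
      · intro i _ hi
        rw [pData_ψ, hlh, if_neg (Ne.symm hi), smul_zero]
      · intro hn; exact absurd (Finset.mem_univ _) hn
    rw [Fin.sum_univ_succ, hg0, zero_smul, zero_add] at hg
    have h6 : ∑ i, g (Fin.succ i) • c i = 0 := by
      have h9 : (X.filEigen J (-z)).subtype (∑ i, g (Fin.succ i) • c i) = 0 := by
        rw [map_sum, ← hg]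
        refine Finset.sum_congr rfl fun i _ => ?_
        rw [map_smul, hhs]
        rfl
      exact Subtype.ext h9
    have h7 := Fintype.linearIndependent_iff.mp c.linearIndependent _ h6
    intro i
    refine Fin.cases hg0 (fun i => h7 i) i
  -- the dual vectors
  obtain ⟨L, hL⟩ : ∃ L : X.H1 →ₗ[ℂ] (Fin 4 → ℂ), ∀ v i, L v i = X.pol v (h i) :=
    ⟨LinearMap.pi fun i => (pData X).ψ.flip (h i), fun v i => rfl⟩
  have hsurj : LinearMap.range L = ⊤ := by
    by_contra hne
    obtain ⟨f, hf0, hf⟩ := Submodule.exists_le_ker_of_lt_top _ (lt_top_iff_ne_top.mpr hne)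
    apply hf0
    obtain ⟨g, hg⟩ : ∃ g : Fin 4 → ℂ, g = fun i => f (Pi.single i 1) := ⟨_, rfl⟩
    have hfg : ∀ v, f v = ∑ i, g i * v i := by
      intro v
      conv_lhs => rw [← Finset.univ_sum_single v]
      rw [map_sum]
      refine Finset.sum_congr rfl fun i _ => ?_
      have h5 : (Pi.single i (v i) : Fin 4 → ℂ) = v i • Pi.single i 1 := by
        rw [← Pi.single_smul, smul_eq_mul, mul_one]
      rw [h5, map_smul, smul_eq_mul, hg, mul_comm]
    have hs0 : ∑ i, g i • h i = 0 := by
      have h6 : ∀ w, (pData X).ψ (∑ i, g i • h i) w = 0 := by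
        intro w
        rw [(pData X).hψalt, neg_eq_zero, map_sum]
        have h7 := hf ⟨w, rfl⟩
        rw [LinearMap.mem_ker, hfg] at h7
        rw [← h7]
        refine Finset.sum_congr rfl fun i _ => ?_
        rw [map_smul, pData_ψ, hL, smul_eq_mul]
      exact (pData X).hψnd _ h6
    have h8 := Fintype.linearIndependent_iff.mp hli g hs0
    ext v
    simp [hfg, h8]
  have hex : ∀ i : Fin 4, ∃ e, J e = z • e ∧ ∀ j, X.pol e (h j) = if i = j then 1 else 0 := by
    intro i
    obtain ⟨v, hv⟩ : ∃ v, L v = fun j => if i = j then 1 else 0 := by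
      have : (fun j => if i = j then (1 : ℂ) else 0) ∈ LinearMap.range L := by
        rw [hsurj]; exact Submodule.mem_top
      exact this
    refine ⟨pz J z v, pz_eigen hl hJ2 hz v, fun j => ?_⟩
    have h5 := congrFun hv j
    rw [hL, ← pz_add (J := J) hz0 v, ← pData_ψ, map_add, LinearMap.add_apply, pData_ψ, pData_ψ,
      hiso (-z) (neg_ne_zero.mpr hz0) _ _ (pz_eigen hl hJ2 hz' v) (hhJ j), add_zero] at h5
    exact h5
  choose e heJ he using hex
  obtain ⟨e', he'⟩ : ∃ e' : Fin 4 → X.H1, e' = fun i => if i = 0 then (l : X.H1) else e i :=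
    ⟨_, rfl⟩
  have he0 : e' 0 = l := by rw [he']; exact if_pos rfl
  have hes : ∀ i, i ≠ 0 → e' i = e i := fun i hi => by rw [he']; exact if_neg hi
  have heJ' : ∀ i, J (e' i) = z • e' i := by
    intro i
    by_cases hi : i = 0
    · rw [hi, he0, hlJ]
    · rw [hes i hi, heJ]
  have hdual : ∀ i j, X.pol (e' i) (h j) = if i = j then 1 else 0 := by
    intro i j
    by_cases hi : i = 0
    · rw [hi, he0, hlh]
    · rw [hes i hi, he]
  have hef : ∀ i j, X.pol (e' i) (e' j) = 0 := fun i j => hiso z hz0 _ _ (heJ' i) (heJ' j)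
  have hht : ∀ i j, X.pol (h i) (h j) = 0 := fun i j =>
    hiso (-z) (neg_ne_zero.mpr hz0) _ _ (hhJ i) (hhJ j)
  -- the basis
  obtain ⟨b, hb⟩ : ∃ b : Fin 4 × Bool → X.H1, ∀ i ε, b (i, ε) = cond ε (h i) (e' i) :=
    ⟨fun x => cond x.2 (h x.1) (e' x.1), fun _ _ => rfl⟩
  have hbf : ∀ i, b (i, false) = e' i := fun i => hb i false
  have hbt : ∀ i, b (i, true) = h i := fun i => hb i true
  have hbi : LinearIndependent ℂ b := by
    rw [Fintype.linearIndependent_iff]
    intro g hg
    rintro ⟨i, ε⟩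
    cases ε
    · have h5 := congrArg (fun v => (pData X).ψ v (h i)) hg
      simp only [map_sum, LinearMap.sum_apply, map_smul, LinearMap.smul_apply, map_zero,
        LinearMap.zero_apply] at h5
      rw [Finset.sum_eq_single (i, false)] at h5
      · rwa [hbf, pData_ψ, hdual, if_pos rfl, smul_eq_mul, mul_one] at h5
      · rintro ⟨j, δ⟩ _ hne
        cases δ
        · rw [hbf, pData_ψ, hdual, if_neg (fun hh => hne (by rw [hh])), smul_zero]
        · rw [hbt, pData_ψ, hht, smul_zero]
      · intro hn; exact absurd (Finset.mem_univ _) hn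
    · have h5 := congrArg (fun v => (pData X).ψ (e' i) v) hg
      simp only [map_sum, map_smul, map_zero] at h5
      rw [Finset.sum_eq_single (i, true)] at h5
      · rwa [hbt, pData_ψ, hdual, if_pos rfl, smul_eq_mul, mul_one] at h5
      · rintro ⟨j, δ⟩ _ hne
        cases δ
        · rw [hbf, pData_ψ, hef, smul_zero]
        · rw [hbt, pData_ψ, hdual, if_neg (fun hh => hne (by rw [hh])), smul_zero]
      · intro hn; exact absurd (Finset.mem_univ _) hn
  have hcard : Fintype.card (Fin 4 × Bool) = finrank ℂ X.H1 := by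
    have h5 : finrank ℂ X.H1 = 2 * X.g := by
      have h6 : finrank ℂ (Fin X.g ⊕ Fin X.g → ℂ) = 2 * X.g := by
        rw [finrank_fintype_fun_eq_card, Fintype.card_sum, Fintype.card_fin]
        ring
      exact h6
    rw [h5, hX]
    decide
  have hB : ∀ x, basisOfLinearIndependentOfCardEqFinrank' b hbi hcard x = b x := fun x => by
    rw [coe_basisOfLinearIndependentOfCardEqFinrank']
  exact ⟨{  b := basisOfLinearIndependentOfCardEqFinrank' b hbi hcard
            Jf := fun i => by rw [hB, hbf]; exact heJ' i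
            Jt := fun i => by rw [hB, hbt]; exact hhJ i
            ft := fun i j => by rw [hB, hB, hbf, hbt]; exact hdual i j
            ff := fun i j => by rw [hB, hB, hbf, hbf]; exact hef i j
            tt := fun i j => by rw [hB, hB, hbt, hbt]; exact hht i j
            fil_f := by rw [hB, hbf, he0]; exact hlF
            fil_t := fun i hi => by rw [hB, hbt]; exact hhF i hi }⟩

theorem exists_frameE (E : AbVar) (hE : E.g = 1) (d : ℚ) (hd : 0 < d) (JE : E.H1 → E.H1)
    (hJE : E.IsEnd JE) (hJ2 : ∀ l, JE (JE l) = (-(d : ℂ)) • l) (z : ℂ) (hz : z ^ 2 = -(d : ℂ))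
    (hf : ∀ l, E.IsFil l → JE l = z • l) : Nonempty (FrameE E JE z) := by
  classical
  have hz0 := z_ne hd hz
  have hl := hJE.linear
  obtain ⟨a0, ha0⟩ : ∃ a0 : Fin E.g, a0 = ⟨0, by omega⟩ := ⟨_, rfl⟩
  have hall : ∀ a : Fin E.g, a = a0 := fun a => Fin.ext (by have := a.2; have := a0.2; omega)
  have huniv : (Finset.univ : Finset (Fin E.g)) = {a0} := by
    ext a
    simp [hall a]
  obtain ⟨u0, hu0⟩ : ∃ u0 : E.H1, u0 = Sum.elim (fun _ => 0) (fun _ => 1) := ⟨_, rfl⟩
  obtain ⟨u1, hu1⟩ : ∃ u1 : E.H1, u1 = Sum.elim (fun _ => 1) (fun _ => 0) := ⟨_, rfl⟩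
  have hdec : ∀ v : E.H1, v = v (.inl a0) • u1 + v (.inr a0) • u0 := by
    intro v
    funext s
    rcases s with a | a
    · rw [hall a, Pi.add_apply, Pi.smul_apply, Pi.smul_apply, hu0, hu1]
      simp
    · rw [hall a, Pi.add_apply, Pi.smul_apply, Pi.smul_apply, hu0, hu1]
      simp
  have hpol : ∀ u v : E.H1, E.pol u v = u (.inl a0) * v (.inr a0) - u (.inr a0) * v (.inl a0) := by
    intro u v
    unfold AbVar.pol
    rw [huniv, Finset.sum_singleton]
    ring
  have hJu0 : JE u0 = z • u0 := hf u0 (by intro a; rw [hu0]; rfl)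
  obtain ⟨a, ha⟩ : ∃ a, a = JE u1 (.inl a0) := ⟨_, rfl⟩
  obtain ⟨b, hb⟩ : ∃ b, b = JE u1 (.inr a0) := ⟨_, rfl⟩
  have hJu1 : JE u1 = a • u1 + b • u0 := by
    rw [ha, hb]
    exact hdec _
  have hu1d : E.IsDeRham u1 := by
    intro s
    rw [hu1]
    rcases s with s | s
    · exact isAlgebraic_one
    · exact isAlgebraic_zero
  have hbalg : IsAlgebraic ℚ b := by rw [hb]; exact hJE.deRham u1 hu1d _
  have hzalg : IsAlgebraic ℚ z := by
    have h : IsAlgebraic ℚ (z ^ 2) := by
      rw [hz]
      exact (isAlgebraic_algebraMap (d : ℚ)).neg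
    exact IsAlgebraic.of_pow two_pos h
  have hsq := hJ2 u1
  rw [hJu1, hl.map_add, hl.map_smul, hl.map_smul, hJu0, hJu1] at hsq
  have hsq1 : a ^ 2 = -(d : ℂ) := by
    have h := congrFun hsq (.inl a0)
    rw [hu0, hu1] at h
    simp at h
    linear_combination h
  have hsq2 : b * (a + z) = 0 := by
    have h := congrFun hsq (.inr a0)
    rw [hu0, hu1] at h
    simp at h
    linear_combination h
  have haz : a = -z := by
    have h3 : (a - z) * (a + z) = 0 := by linear_combination hsq1 - hz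
    rcases mul_eq_zero.mp h3 with h4 | h4
    · exfalso
      have h5 : a = z := sub_eq_zero.mp h4
      rw [h5] at hsq2
      have hb0 : b = 0 := by
        rcases mul_eq_zero.mp hsq2 with h6 | h6
        · exact h6
        · exact absurd (by linear_combination h6 / 2) hz0
      have hscal : ∀ v, JE v = z • v := by
        intro v
        rw [hdec v, hl.map_add, hl.map_smul, hl.map_smul, hJu1, hJu0, h5, hb0]
        module
      have hι : Nonempty (pData E).ι := by
        have : Nonempty (Fin E.g ⊕ Fin E.g) := ⟨.inl a0⟩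
        have : Nontrivial (Fin E.g ⊕ Fin E.g → ℂ) := inferInstance
        exact (pData E).bB.index_nonempty
      obtain ⟨p⟩ := hι
      have hwB : (pData E).bB p ∈ (pData E).Q := (pData E).basis_mem p
      have hJwB : JE ((pData E).bB p) ∈ (pData E).Q :=
        (mem_pData_Q _ _).mpr (hJE.betti _ ((mem_pData_Q _ _).mp hwB))
      obtain ⟨r, hr⟩ := (pData E).repr_rat _ hJwB p
      rw [hscal, map_smul, Basis.repr_self, Finsupp.smul_apply, Finsupp.single_eq_same,
        smul_eq_mul, mul_one] at hr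
      rw [hr] at hz
      have h7 : ((r ^ 2 : ℚ) : ℂ) = ((-d : ℚ) : ℂ) := by push_cast; exact hz
      have h8 : r ^ 2 = -d := by exact_mod_cast h7
      nlinarith [sq_nonneg r]
    · exact eq_neg_of_add_eq_zero_left h4
  obtain ⟨c, hc⟩ : ∃ c, c = -b / (2 * z) := ⟨_, rfl⟩
  have hcalg : IsAlgebraic ℚ c := by
    rw [hc, div_eq_mul_inv]
    refine hbalg.neg.mul (IsAlgebraic.inv ?_)
    have h2 : IsAlgebraic ℚ (2 : ℂ) := by
      have h : IsAlgebraic ℚ ((2 : ℚ) : ℂ) := isAlgebraic_algebraMap (2 : ℚ)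
      rwa [Rat.cast_ofNat] at h
    exact h2.mul hzalg
  have hJt : JE (u1 + c • u0) = (-z) • (u1 + c • u0) := by
    rw [hl.map_add, hl.map_smul, hJu1, hJu0, haz]
    have h : b = -(2 * z * c) := by
      rw [hc]
      field_simp
    rw [h]
    module
  obtain ⟨g, hg⟩ : ∃ g : Bool → E.H1, g false = - u0 ∧ g true = u1 + c • u0 :=
    ⟨fun ε => cond ε (u1 + c • u0) (-u0), rfl, rfl⟩
  obtain ⟨hgf, hgt⟩ := hg
  have hft : E.pol (g false) (g true) = 1 := by
    rw [hpol, hgf, hgt, hu0, hu1]
    simp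
  have hff : E.pol (g false) (g false) = 0 := by rw [hpol]; ring
  have htt : E.pol (g true) (g true) = 0 := by rw [hpol]; ring
  have hgi : LinearIndependent ℂ g := by
    rw [Fintype.linearIndependent_iff]
    intro f hf'
    rw [Fintype.sum_bool] at hf'
    intro ε
    cases ε
    · have h5 := congrArg (fun v => (pData E).ψ v (g true)) hf'
      simp only [map_add, LinearMap.add_apply, map_smul, LinearMap.smul_apply, map_zero,
        LinearMap.zero_apply, pData_ψ, htt, hft, smul_eq_mul, mul_zero, mul_one, zero_add] at h5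
      exact h5
    · have h5 := congrArg (fun v => (pData E).ψ (g false) v) hf'
      simp only [map_add, map_smul, map_zero, pData_ψ, hff, hft, smul_eq_mul, mul_zero, mul_one,
        add_zero] at h5
      exact h5
  have hcard : Fintype.card Bool = finrank ℂ E.H1 := by
    have h6 : finrank ℂ (Fin E.g ⊕ Fin E.g → ℂ) = 2 * E.g := by
      rw [finrank_fintype_fun_eq_card, Fintype.card_sum, Fintype.card_fin]
      ring
    have h5 : finrank ℂ E.H1 = 2 * E.g := h6
    rw [h5, hE]
    rfl
  have hB : ∀ x, basisOfLinearIndependentOfCardEqFinrank' g hgi hcard x = g x := fun x => by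
    rw [coe_basisOfLinearIndependentOfCardEqFinrank']
  refine ⟨{  g := basisOfLinearIndependentOfCardEqFinrank' g hgi hcard
             Jf := by rw [hB, hgf, hl.map_neg, hJu0, smul_neg]
             Jt := by rw [hB, hgt, hJt]
             ft := by rw [hB, hB, hft]
             fil := ?_
             alg := fun ε => ?_ }⟩
  · rw [hB, hgf]
    intro s
    rw [hu0]
    simp
  · rw [hB]
    cases ε
    · rw [hgf]
      intro s
      rw [hu0]
      rcases s with s | s
      · exact isAlgebraic_zero.neg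
      · exact isAlgebraic_one.neg
    · rw [hgt]
      intro s
      rw [hu0, hu1]
      rcases s with s | s
      · exact isAlgebraic_one.add (hcalg.mul isAlgebraic_zero)
      · exact isAlgebraic_zero.add (hcalg.mul isAlgebraic_one)

end Pool.Agent.Helper7.AFT
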