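import Pool.Agent.Helper7.AFT.Gen

/-!
The conclusion from rotations for a Hermitian space of dimension four over an imaginary quadratic
field, classes of degree four.
-/

open scoped ComplexConjugate

namespace Pool.Agent.Helper7.AFT

open Module Matrix Pool.Agent.Helper7 NumberField Pool.Agent.Ball
open Pool.Agent.Helper8.D (ent ent_apply ent_act)

section final

variable {κ : Type} [Fintype κ] [DecidableEq κ] {ϖ : ℂ}
    (P : PData κ ϖ) {K : Type} [Field K] [NumberField K] (F : UF P K 4)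
    (α : (HW (fun _ : Unit => κ) (fun _ => 1)) [⋀^Fin (2 * 2)]→ₗ[ℂ] ℂ)

/-- The conclusion from rotations, if the values on the monomials with four different sites
vanish. -/
theorem gen_of_odd [Subsingleton (InfinitePlace K)] (hϖ : ϖ ≠ 0)
    (hc : ∀ σ : K →+* ℂ, ComplexEmbedding.conjugate σ ≠ σ)
    (hB : ∀ v : Fin (2 * 2) → HW (fun _ : Unit => κ) (fun _ => 1),
      (∀ r, IsRatP (fun _ => 1) (fun _ : Unit => P) (v r)) →
      ∃ q : ℚ, α v = ϖ ^ 2 * q)
    (hA : ∀ v : Fin (2 * 2) → HW (fun _ : Unit => κ) (fun _ => 1),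
      (∀ r i m j, IsAlgebraic ℚ (v r i m j)) → IsAlgebraic ℚ (α v))
    (hrot : ∀ σ : K →+* ℂ, HasRot P F α σ)
    (hodd : ∀ (b : Basis (InfinitePlace K × Fin 4 × Bool) ℂ (HW (fun _ : Unit => κ) (fun _ => 1)))
      (R : InfinitePlace K → Fin 4 → Fin 4 → Module.End ℂ (HW (fun _ : Unit => κ) (fun _ => 1))),
      (∀ s i x, F.ρ x (b (s, i, false) () 0) = s.embedding x • b (s, i, false) () 0) →
      (∀ s i x, F.ρ x (b (s, i, true) () 0) = conj (s.embedding x) • b (s, i, true) () 0) →
      (∀ s i j, P.ψ (b (s, i, false) () 0) (b (s, j, true) () 0) = if i = j then 1 else 0) →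
      (∀ s i j, i ≠ j → ∀ (t : InfinitePlace K) (l : Fin 4) (ε : Bool), R s i j (b (t, l, ε)) =
        open Classical in
        if t = s ∧ l = i then - b (s, j, ε) else if t = s ∧ l = j then b (s, i, ε) else 0) →
      (∀ s i j, i ≠ j → ∀ v : Fin (2 * 2) → HW (fun _ : Unit => κ) (fun _ => 1),
        ∑ r, α (Function.update v r (R s i j (v r))) = 0) →
      ∀ s : Fin (2 * 2) → InfinitePlace K × Fin 4 × Bool, Function.Injective (fun r => (s r).2.1) →
      α (fun r => b (s r)) = 0) :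
    α ∈ Submodule.span ℚ {ω | ∃ γ : Fin 2 → (HW (fun _ : Unit => κ) (fun _ => 1) →ₗ[ℂ]
        HW (fun _ : Unit => κ) (fun _ => 1) →ₗ[ℂ] ℂ),
      (∀ a, γ a ∈ GW (fun _ => 1) (fun _ : Unit => P)) ∧ ω = wedge γ} := by
  classical
  have hrot' : ∀ s : InfinitePlace K, HasRot P F α s.embedding := fun s => hrot _
  choose U V hUV hVU hX using hrot'
  choose X hXinv hX2 hXs hX0 using hX
  obtain ⟨b, hb⟩ : ∃ b : Basis (InfinitePlace K × Fin 4 × Bool) ℂ
      (HW (fun _ : Unit => κ) (fun _ => 1)), b = (bB F U V hVU hc).map (oneEq κ) := ⟨_, rfl⟩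
  have hbx : ∀ x, b x = oneEq κ (bv F U V x) := by
    intro x
    rw [hb, Basis.map_apply, bB_apply]
  have hbx0 : ∀ x, b x () 0 = bv F U V x := by
    intro x
    rw [hbx]
    rfl
  have hbc : ∀ x u, b.coord x u = (bB F U V hVU hc).coord x (u () 0) := by
    intro x u
    rw [hb]
    rfl
  have hvc : ∀ (σ : K →+* ℂ) (w : Fin 4 → ℂ) (x : K), F.ρ x (vc F σ w) = σ x • vc F σ w := by
    intro σ w x
    rw [vc_apply, map_sum, Finset.smul_sum]
    refine Finset.sum_congr rfl fun a _ => ?_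
    rw [map_smul, F.rho_e, smul_comm]
  have hR : ∀ s i j, i ≠ j → ∀ (t : InfinitePlace K) (l : Fin 4) (ε : Bool),
      lift (κ := fun _ : Unit => κ) (fun _ => 1) (X s i j).1 (b (t, l, ε)) =
        if t = s ∧ l = i then - b (s, j, ε) else if t = s ∧ l = j then b (s, i, ε) else 0 := by
    intro s i j hij t l ε
    rw [hbx, hbx, hbx, oneEq_lift, rot_bv F U V hVU hc ((X s i j).1 ())
      (fun x v => (hXinv s i j).comm () () _ (F.hρ x) v)
      (fun u v => by
        have h := (hXinv s i j).pol () u v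
        rw [hX2, zero_mul] at h
        exact h) s i j hij (hXs s i j) (hX0 s i j) t l ε]
    split_ifs
    · rw [map_neg]
    · rfl
    · rw [map_zero]
  have hα : ∀ s i j, i ≠ j → ∀ v : Fin (2 * 2) → HW (fun _ : Unit => κ) (fun _ => 1),
      ∑ r, α (Function.update v r (lift (κ := fun _ : Unit => κ) (fun _ => 1) (X s i j).1 (v r)))
        = 0 := by
    intro s i j hij v
    have h := congrArg (fun f => f v) (hXinv s i j).form
    simp only [actForm_apply] at h
    rw [hX2, mul_zero, zero_smul] at h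
    exact h
  -- the span of the exterior products of the pairings
  have h1 : α ∈ Submodule.span ℂ {ω | ∃ f : Fin 2 → InfinitePlace K,
      ω = wedge (fun a => beta b (f a))} := by
    refine span_of_odd b (fun s i j => lift (fun _ => 1) (X s i j).1) hR α hα ?_
    refine hodd b (fun s i j => lift (fun _ => 1) (X s i j).1) ?_ ?_ ?_
      (fun s i j hij t l ε => (hR s i j hij t l ε).trans (by split_ifs <;> rfl)) hα
    · intro s i x
      rw [hbx0]
      exact hvc _ _ _
    · intro s i x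
      rw [hbx0]
      exact hvc _ _ _
    · intro s i j
      rw [hbx0, hbx0, bv_ft F U V hVU]
      by_cases h : i = j
      · rw [if_pos ⟨rfl, h⟩, if_pos h]
      · rw [if_neg (fun h' => h h'.2), if_neg h]
  -- the pairings are invariant
  have hinv : ∀ s, beta b s ∈ invB (fun _ => 1) (fun _ : Unit => P)
      (α : MultilinearMap ℂ (fun _ : Fin (2 * 2) => HW (fun _ : Unit => κ) (fun _ => 1)) ℂ) := by
    intro s Y hY u v
    have hβ : ∀ u v : HW (fun _ : Unit => κ) (fun _ => 1), beta b s u v =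
        P.ψ (proj F.ρ s.embedding (u () 0)) (v () 0) := by
      intro u v
      rw [pair_eq F U V hVU hc, beta, LinearMap.sum_apply, LinearMap.sum_apply]
      refine Finset.sum_congr rfl fun i _ => ?_
      rw [LinearMap.compl₁₂_apply, LinearMap.mul_apply', hbc, hbc]
    have hYc : F.Comm (Y.1 ()) := fun x v => hY.comm () () _ (F.hρ x) v
    rw [hβ, hβ, hβ]
    show P.ψ (proj F.ρ s.embedding (Y.1 () (u () 0))) (v () 0) +
      P.ψ (proj F.ρ s.embedding (u () 0)) (Y.1 () (v () 0)) = _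
    rw [← hYc.proj]
    exact hY.pol () _ _
  -- the complex span
  have h2 : α ∈ Submodule.span ℂ {ω | ∃ γ : Fin 2 → (HW (fun _ : Unit => κ) (fun _ => 1) →ₗ[ℂ]
        HW (fun _ : Unit => κ) (fun _ => 1) →ₗ[ℂ] ℂ),
      (∀ a, γ a ∈ GW (fun _ => 1) (fun _ : Unit => P)) ∧ ω = wedge γ} := by
    refine Submodule.span_le.mpr ?_ h1
    rintro _ ⟨f, rfl⟩
    exact wedge_mem_span (GW (fun _ => 1) (fun _ : Unit => P)) _
      (fun a => inv_mem_GW (fun _ => 1) (fun _ : Unit => P) _ hϖ hB hA _ (hinv (f a)))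
  refine rational_descent (FBP (fun _ => 1) (fun _ : Unit => P)) (ϖ ^ 2) (pow_ne_zero _ hϖ) _ ?_ α
    (fun s => hB _ (fun r => FBP_isRatP _ _ _)) h2
  rintro ω ⟨γ, hγ, rfl⟩ s
  exact wedge_rational' (fun _ => 1) (fun _ : Unit => P) γ hγ _ (fun r => FBP_isRatP _ _ _)

end final

end Pool.Agent.Helper7.AFT
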