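import Pool.Agent.Helper7.AFT.FrameLem
import Pool.Agent.Helper7.AFT.Gen2
import Pool.Agent.Helper44.AFT.T6
import Pool.Agent.Helper70.AFT.T8
import Pool.Agent.Helper83.Ball.Final
import Pool.Agent.Helper7.W4.Quad

/-!
Simple abelian fourfolds with an imaginary quadratic field of endomorphisms of signature `(1, 3)` and
an exterior square: the Grothendieck classes killed by the field are divisorial.
-/

open scoped ComplexConjugate

namespace Pool.Agent.Helper7.AFT

open Module NumberField Matrix Pool.Agent.GPC Pool.Agent.Helper7 Pool.Agent.Helper39.AF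
open Pool.Agent.Ball Pool.Agent.Helper83.Ball

variable {X : AbVar} {d : ℚ} {J : X.H1 → X.H1}

/-- the field and its action -/
theorem quad_ball (hX : X.g = 4) (HQ : X.IsQuadBy d J) {z : ℂ} (hz : z ^ 2 = -(d : ℂ))
    (h1 : finrank ℂ (X.filEigen J z) = 1) :
    ∃ (K : Type) (_ : Field K) (_ : NumberField K) (_ : IsCMField K)
      (ρ : K → X.H1 → X.H1) (x : K), X.IsBallMult K 4 ρ ∧ finrank ℚ K = 2 ∧ ∀ v, ρ x v = J v := by
  obtain ⟨K, iF, iN, iC, ρ, x, C, h2, hx⟩ := HQ.exists_cm (by omega)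
  refine ⟨K, iF, iN, iC, ρ, x, ⟨C.one, C.mul, C.add, by rw [h2, hX], C.endo, C.rosati,
    fun f hf hc => C.centralizer f hf (fun x _ v => hc x v), ?_⟩, h2, hx⟩
  obtain ⟨F, hF, -⟩ := nonempty_UFh X K ρ C 4 (by rw [h2, hX])
  have hFx : ∀ v, F.ρ x v = J v := fun v => by rw [hF, hx]
  have hsq : ∀ (ν : K →+* ℂ), (ν x) ^ 2 = -(d : ℂ) := by
    intro ν
    have h1 := HQ.sq (F.e ν 0)
    rw [← hFx, ← hFx, F.rho_e, map_smul, F.rho_e, smul_smul, ← sub_eq_zero, ← sub_smul,
      smul_eq_zero] at h1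
    rw [pow_two]
    exact sub_eq_zero.mp (h1.resolve_right (Pool.Agent.Helper24.e_ne F ν 0))
  -- the embedding
  obtain ⟨σ, hσ⟩ : ∃ σ : K →+* ℂ, σ x = z := by
    obtain ⟨τ⟩ : Nonempty (K →+* ℂ) := inferInstance
    have h3 : (τ x - z) * (τ x + z) = 0 := by linear_combination hsq τ - hz
    rcases mul_eq_zero.mp h3 with h4 | h4
    · exact ⟨τ, sub_eq_zero.mp h4⟩
    · refine ⟨ComplexEmbedding.conjugate τ, ?_⟩
      rw [ComplexEmbedding.conjugate_coe_eq, conj_of_sq HQ.pos (hsq τ),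
        eq_neg_of_add_eq_zero_left h4, neg_neg]
  refine ⟨σ, ?_, fun τ h3 h4 => ?_⟩
  · have h3 : X.eigenFil ρ σ = X.filEigen J z := by
      unfold AbVar.eigenFil AbVar.filEigen
      congr 1
      ext v
      refine ⟨fun h => ⟨?_, h.2⟩, fun h => ⟨fun y => ?_, h.2⟩⟩
      · rw [← hx, h.1 x, hσ]
      · obtain ⟨a, b, hab⟩ := HQ.all (ρ y) (C.endo y)
        have h5 := hab (F.e σ 0)
        rw [← hF, ← hFx, F.rho_e, F.rho_e, hσ, smul_smul, ← add_smul, ← sub_eq_zero, ← sub_smul,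
          smul_eq_zero] at h5
        have h6 := sub_eq_zero.mp (h5.resolve_right (Pool.Agent.Helper24.e_ne F σ 0))
        rw [hab, h.1, h6, smul_smul, ← add_smul]
    rw [h3]
    exact h1
  · exfalso
    rcases Pool.Agent.Helper24.emb_two h2 σ τ with h | h
    · exact h3 h
    · exact h4 h

lemma bool_ne : ∀ a b : Bool, a ≠ b → a = !b := by decide

lemma inj_four {ι : Type} (a c e f : ι) (hac : a ≠ c) (hae : a ≠ e) (haf : a ≠ f) (hce : c ≠ e)
    (hcf : c ≠ f) (hef : e ≠ f) : Function.Injective ![a, c, e, f] := by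
  intro i j hij
  match i, j, hij with
  | 0, 0, _ => exact rfl
  | 0, 1, h => exact absurd h hac
  | 0, 2, h => exact absurd h hae
  | 0, 3, h => exact absurd h haf
  | 1, 0, h => exact absurd h.symm hac
  | 1, 1, _ => exact rfl
  | 1, 2, h => exact absurd h hce
  | 1, 3, h => exact absurd h hcf
  | 2, 0, h => exact absurd h.symm hae
  | 2, 1, h => exact absurd h.symm hce
  | 2, 2, _ => exact rfl
  | 2, 3, h => exact absurd h hef
  | 3, 0, h => exact absurd h.symm haf
  | 3, 1, h => exact absurd h.symm hcf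
  | 3, 2, h => exact absurd h.symm hef
  | 3, 3, _ => exact rfl

set_option maxHeartbeats 4000000 in
/-- classes of degree four -/
theorem simple_two (hX : X.g = 4) (HQ : X.IsQuadBy d J) (hJ : X.IsWeilStructure d J) {z : ℂ}
    (hz : z ^ 2 = -(d : ℂ)) (h1 : finrank ℂ (X.filEigen J z) = 1) {Y E : AbVar}
    {JY : Y.H1 → Y.H1} {JE : E.H1 → E.H1} {T : Ten X Y E}
    (hT : X.IsExtSquareL d J Y E JY JE T)
    (hz' : ∀ l, E.IsFil l → JE l = z • l) (α : X.Class (2 * 2)) (hα : X.IsGrothendieckClass 2 α)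
    (hk : ∀ v : Fin (2 * 2) → X.H1, ∑ r, α (Function.update v r (J (v r))) = 0) :
    X.IsDivisorialClass 2 α := by
  obtain ⟨K, iF, iN, iC, ρ, x, C, h2, hx⟩ := quad_ball hX HQ hz h1
  obtain ⟨F, σ₀, hF, hL, hD⟩ := ball_frame X K 4 ρ C
  have hc : ComplexEmbedding.conjugate σ₀ ≠ σ₀ := fun h =>
    IsTotallyComplex.complexEmbedding_not_isReal σ₀ (ComplexEmbedding.isReal_iff.mpr h)
  have hz0 : z ≠ 0 := z_ne HQ.pos hz
  have hFx : ∀ v, F.ρ x v = J v := fun v => by rw [hF, hx]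
  obtain ⟨Jl, hJl⟩ : ∃ Jl : X.H1 →ₗ[ℂ] X.H1, ∀ v, Jl v = J v :=
    ⟨IsLinearMap.mk' _ HQ.endo.linear, fun _ => rfl⟩
  have hsq : ∀ (ν : K →+* ℂ), (ν x) ^ 2 = -(d : ℂ) := by
    intro ν
    have h1 := HQ.sq (F.e ν 0)
    rw [← hFx, ← hFx, F.rho_e, map_smul, F.rho_e, smul_smul, ← sub_eq_zero, ← sub_smul,
      smul_eq_zero] at h1
    rw [pow_two]
    exact sub_eq_zero.mp (h1.resolve_right (Pool.Agent.Helper24.e_ne F ν 0))
  obtain ⟨Fr⟩ := exists_frame X hX d J hJ z hz h1
  have hiso := isIsogeny_one X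
  have hG := grothendieck_transfer hiso α hα
  obtain ⟨β, hβ⟩ : ∃ β : Form (fun _ : Unit => X) (fun _ => 1) (2 * 2),
    β = α.compLinearMap (one X).symm.toLinearMap := ⟨_, rfl⟩
  rw [← hβ] at hG
  have hβα : ∀ v, β v = α (fun r => v r () 0) := fun v => by rw [hβ]; rfl
  have : Subsingleton (InfinitePlace K) := by
    refine ⟨fun s t => ?_⟩
    rw [← InfinitePlace.mk_embedding s, ← InfinitePlace.mk_embedding t, InfinitePlace.mk_eq_iff]
    rcases Pool.Agent.Helper24.emb_two h2 s.embedding t.embedding with h | h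
    · exact Or.inl h.symm
    · exact Or.inr h.symm
  have hB : ∀ v : Fin (2 * 2) → HW (fun _ : Unit => Fin X.g ⊕ Fin X.g) (fun _ => 1),
      (∀ r, IsRatP (fun _ => 1) (fun _ : Unit => pData X) (v r)) →
      ∃ q : ℚ, β v = (2 * Real.pi * Complex.I) ^ 2 * q := fun v hv => hG.2 v fun r i j =>
    (mem_pData_Q _ _).mp (hv r i j)
  have hrot := all_rot (pData X) F β (by norm_num) σ₀ hL hD hB hG.1
  have hspan := gen_of_odd (pData X) F β Complex.two_pi_I_ne_zero
    (fun σ => all_complex (pData X) F σ₀ hc σ) hB hG.1 hrot ?_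
  · have h2 := isDivisorial_of_span (fun _ : Unit => X) (fun _ => 1) 2 β hspan
    have h3 := divisorial_transfer hiso (ι := fun _ => id)
      (fun _ => ⟨⟨⟨fun _ _ => rfl, fun _ _ => rfl⟩, fun _ h => h, fun _ h => h, fun _ h => h⟩,
        fun _ _ => rfl⟩) β h2
    have h4 : β.compLinearMap (one X).toLinearMap = α := by
      rw [hβ]
      ext v
      rfl
    rwa [h4] at h3
  -- monomials with four different sites
  intro b R hbf hbt hbψ hR hRα s hs
  obtain ⟨q, hq⟩ : ∃ q : InfinitePlace K, q = (s 0).1 := ⟨_, rfl⟩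
  obtain ⟨b', hb'⟩ : ∃ b' : Basis (InfinitePlace K × Fin 4 × Bool) ℂ X.H1,
    ∀ y, b' y = b y () 0 := ⟨b.map (one X).symm, fun y => rfl⟩
  -- the eigenvalues of `J`
  obtain ⟨y, hy⟩ : ∃ y, y = q.embedding x := ⟨_, rfl⟩
  have hyd : y ^ 2 = -(d : ℂ) := by rw [hy]; exact hsq _
  have hyc : conj y = -y := conj_of_sq HQ.pos hyd
  have hJf : ∀ i, J (b' (q, i, false)) = y • b' (q, i, false) := by
    intro i
    rw [hb', ← hFx, hbf, hy]
  have hJt : ∀ i, J (b' (q, i, true)) = (-y) • b' (q, i, true) := by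
    intro i
    rw [hb', ← hFx, hbt, ← hy, hyc]
  obtain ⟨ε, hε1, hε2⟩ : ∃ ε, (∀ i, J (b' (q, i, ε)) = z • b' (q, i, ε)) ∧
      ∀ i, J (b' (q, i, !ε)) = (-z) • b' (q, i, !ε) := by
    have h3 : (y - z) * (y + z) = 0 := by linear_combination hyd - hz
    rcases mul_eq_zero.mp h3 with h4 | h4
    · rw [sub_eq_zero.mp h4] at hJf hJt
      exact ⟨false, hJf, hJt⟩
    · rw [eq_neg_of_add_eq_zero_left h4] at hJf hJt
      rw [neg_neg] at hJt
      exact ⟨true, hJt, hJf⟩
  have hpol : ∀ i j, X.pol (b' (q, i, ε)) (b' (q, j, !ε)) =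
      (if ε = false then 1 else -1) * (if i = j then 1 else 0) := by
    intro i j
    cases ε
    · have h3 := hbψ q i j
      rw [pData_ψ] at h3
      rw [hb', hb']
      show X.pol (b (q, i, false) () 0) (b (q, j, true) () 0) = _
      rw [h3, if_pos rfl, one_mul]
    · have h3 := hbψ q j i
      rw [(pData X).hψalt, pData_ψ] at h3
      rw [hb', hb']
      show X.pol (b (q, i, true) () 0) (b (q, j, false) () 0) = _
      rw [if_neg (by decide : ¬ (true = false))]
      by_cases h : i = j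
      · rw [if_pos h.symm] at h3
        rw [if_pos h]
        linear_combination -h3
      · rw [if_neg (Ne.symm h)] at h3
        rw [if_neg h]
        linear_combination -h3
  -- the line
  obtain ⟨l, hl⟩ : ∃ l : Fin 4 → ℂ, Fr.b (0, false) = ∑ i, l i • b' (q, i, ε) :=
    ⟨_, eigen_expand b' Jl hz0 q ε (fun i => by rw [hJl]; exact hε1 i)
      (fun i => by rw [hJl]; exact hε2 i) _ (by rw [hJl]; exact Fr.Jf 0)⟩
  have hl0 : l ≠ 0 := by
    rintro rfl
    apply Fr.b.ne_zero (0, false)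
    rw [hl]
    simp
  have hpolsum : ∀ h : Fin 4 → ℂ, ∑ i, l i * h i = 0 →
      X.pol (Fr.b (0, false)) (∑ i, h i • b' (q, i, !ε)) = 0 := by
    intro h hh
    have h3 : ∀ i, (pData X).ψ (l i • b' (q, i, ε)) (∑ j, h j • b' (q, j, !ε)) =
        (if ε = false then 1 else -1) * (l i * h i) := by
      intro i
      rw [map_smul, LinearMap.smul_apply, map_sum, Finset.sum_eq_single i]
      · rw [map_smul, pData_ψ, hpol, if_pos rfl, smul_eq_mul, smul_eq_mul]
        ring
      · intro j _ hj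
        rw [map_smul, pData_ψ, hpol, if_neg (Ne.symm hj), mul_zero, smul_zero]
      · intro h; exact absurd (Finset.mem_univ _) h
    rw [← pData_ψ, hl, map_sum (pData X).ψ, LinearMap.sum_apply,
      Finset.sum_congr rfl fun i _ => h3 i, ← Finset.mul_sum, hh, mul_zero]
  have hJsum : ∀ (δ : Bool) (c : ℂ) (hc : ∀ i, J (b' (q, i, δ)) = c • b' (q, i, δ))
      (v : Fin 4 → ℂ), J (∑ i, v i • b' (q, i, δ)) = c • ∑ i, v i • b' (q, i, δ) := by
    intro δ c hc v
    rw [← hJl, map_sum, Finset.smul_sum]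
    refine Finset.sum_congr rfl fun i _ => ?_
    rw [map_smul, hJl, hc, smul_comm]
  have hsum : ∀ (δ : Bool) (v : Fin 4 → ℂ), (∑ i, v i • b (q, i, δ)) () 0 =
      ∑ i, v i • b' (q, i, δ) := by
    intro δ v
    have h3 : (∑ i, v i • b (q, i, δ)) () 0 = (one X).symm (∑ i, v i • b (q, i, δ)) := rfl
    rw [h3, map_sum]
    refine Finset.sum_congr rfl fun i _ => ?_
    rw [map_smul, hb']
    rfl
  have hstar : ∀ v h h' : Fin 4 → ℂ, ∑ i, l i * h i = 0 → ∑ i, l i * h' i = 0 →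
      β ![∑ i, l i • b (q, i, ε), ∑ i, v i • b (q, i, ε), ∑ i, h i • b (q, i, !ε),
        ∑ i, h' i • b (q, i, !ε)] = 0 := by
    intro v h h' hh hh'
    rw [hβα, eq_four]
    show four α ((∑ i, l i • b (q, i, ε)) () 0) ((∑ i, v i • b (q, i, ε)) () 0)
      ((∑ i, h i • b (q, i, !ε)) () 0) ((∑ i, h' i • b (q, i, !ε)) () 0) = 0
    rw [hsum, hsum, hsum, hsum, ← hl]
    exact star X hX d J hJ z hz h1 Y E JY JE T hT hz' α hα _ _ _ _ (Fr.Jf 0) Fr.fil_f
      (hJsum ε z hε1 v) (hJsum _ _ hε2 h)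
      (fil_of_perp_line Fr hJ hz0 _ (hJsum _ _ hε2 h) (hpolsum h hh)) (hJsum _ _ hε2 h')
      (fil_of_perp_line Fr hJ hz0 _ (hJsum _ _ hε2 h') (hpolsum h' hh'))
  -- the signs
  by_contra hne
  have hval : β (fun r => b (s r)) = α (fun r => b' (s r)) := by
    rw [hβα]
    congr 1
    funext r
    rw [hb']
  have hsq' : ∀ r, s r = (q, (s r).2.1, (s r).2.2) := fun r =>
    Prod.ext (Subsingleton.elim _ _) rfl
  have hJs : ∀ r, J (b' (s r)) = (if (s r).2.2 = ε then z else -z) • b' (s r) := by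
    intro r
    by_cases h : (s r).2.2 = ε
    · rw [if_pos h, hsq' r, h]
      exact hε1 _
    · have h' : (s r).2.2 = !ε := bool_ne _ _ h
      rw [if_neg h, hsq' r, h']
      exact hε2 _
  have hsum0 : (∑ r, (if (s r).2.2 = ε then (1 : ℤ) else -1)) = 0 := by
    have h3 := hk (fun r => b' (s r))
    have h4 : ∀ r, α (Function.update (fun r => b' (s r)) r (J (b' (s r)))) =
        (z * ((if (s r).2.2 = ε then (1 : ℤ) else -1 : ℤ) : ℂ)) * α (fun r => b' (s r)) := by
      intro r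
      rw [hJs, AlternatingMap.map_update_smul, Function.update_eq_self, smul_eq_mul]
      congr 1
      split_ifs
      · push_cast; ring
      · push_cast; ring
    rw [Finset.sum_congr rfl fun r _ => h4 r, ← Finset.sum_mul, ← Finset.mul_sum,
      ← Int.cast_sum] at h3
    have h5 := (mul_eq_zero.mp h3).resolve_right (fun h => hne (by rw [hval]; exact h))
    exact_mod_cast (mul_eq_zero.mp h5).resolve_left hz0
  obtain ⟨a, c, e, f, ⟨ha, hc', he, hf⟩, hac, hae, haf, hce, hcf, hef⟩ :=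
    sort_signs (fun r => (s r).2.2) ε hsum0
  have hπ : Function.Injective ![a, c, e, f] := inj_four a c e f hac hae haf hce hcf hef
  obtain ⟨π, hπe⟩ : ∃ π : Equiv.Perm (Fin (2 * 2)), ∀ r, π r = ![a, c, e, f] r :=
    ⟨Equiv.ofBijective _ (Finite.injective_iff_bijective.mp hπ), fun _ => rfl⟩
  have h3 := β.map_perm (fun r => b (s r)) π
  have h4 : (fun r => b (s r)) ∘ π = ![b (q, (s a).2.1, ε), b (q, (s c).2.1, ε),
      b (q, (s e).2.1, !ε), b (q, (s f).2.1, !ε)] := by
    have g : ∀ (r : Fin (2 * 2)) (δ : Bool), (s r).2.2 = δ → b (s r) = b (q, (s r).2.1, δ) := by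
      intro r δ h
      rw [← h, ← hsq' r]
    funext r
    show b (s (π r)) = _
    rw [hπe]
    fin_cases r
    · exact g a _ ha
    · exact g c _ hc'
    · exact g e _ he
    · exact g f _ hf
  rw [h4, odd_zero b R (fun s i j hij t l ε => (hR s i j hij t l ε).trans (by split_ifs <;> rfl)) β
    hRα q ε l hl0 hstar _ _ _ _ (fun h => hac (hs h)) (fun h => hae (hs h)) (fun h => haf (hs h))
    (fun h => hce (hs h)) (fun h => hcf (hs h)) (fun h => hef (hs h))] at h3
  apply hne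
  rcases Int.units_eq_one_or (Equiv.Perm.sign π) with h5 | h5
  · rw [h5, one_smul] at h3
    exact h3.symm
  · rw [h5, Units.neg_smul, one_smul, eq_comm, neg_eq_zero] at h3
    exact h3

/-- classes of all degrees -/
theorem simple_all (hX : X.g = 4) (HQ : X.IsQuadBy d J) (hJ : X.IsWeilStructure d J) {z : ℂ}
    (hz : z ^ 2 = -(d : ℂ)) (h1 : finrank ℂ (X.filEigen J z) = 1) {Y E : AbVar}
    {JY : Y.H1 → Y.H1} {JE : E.H1 → E.H1} {T : Ten X Y E}
    (hT : X.IsExtSquareL d J Y E JY JE T)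
    (hz' : ∀ l, E.IsFil l → JE l = z • l) (k : ℕ) (α : X.Class (2 * k))
    (hα : X.IsGrothendieckClass k α)
    (hk : ∀ v : Fin (2 * k) → X.H1, ∑ r, α (Function.update v r (J (v r))) = 0) :
    X.IsDivisorialClass k α := by
  by_cases h2 : k = 2
  · subst h2
    exact simple_two hX HQ hJ hz h1 hT hz' α hα hk
  · obtain ⟨K, iF, iN, iC, ρ, x, C, -, -⟩ := quad_ball hX HQ hz h1
    refine (main_ball X K 4 ρ C (by norm_num) k ?_ α).mp hα
    rw [if_pos (by decide)]
    omega

end Pool.Agent.Helper7.AFT
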