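import Pool.Agent.Helper39.AF.Defs1

/-!
Definitions for the theorem on abelian varieties of dimension at most four without exceptions: Hodge
classes, balanced Weil structures, exterior squares.
-/

namespace Pool.Agent.GPC

namespace AbVar

variable (X : AbVar)

/-- `α` lies in the step `F^k` of the Hodge filtration of `H^{2k}(X, ℂ)`; a class in
`(2πi)^k H^{2k}(X, ℚ)` is a Hodge class if and only if it lies in `F^k`. -/
def IsInFil (k : ℕ) (α : X.Class (2 * k)) : Prop :=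
  ∀ v : Fin (2 * k) → X.H1, (∃ s : Finset (Fin (2 * k)), k < s.card ∧ ∀ r ∈ s, X.IsFil (v r)) →
    α v = 0

/-- the intersection of the step `F^0` of the Hodge filtration of `H_1(X, ℂ)` with the eigenspace
of `J` for `z` -/
def filEigen (J : X.H1 → X.H1) (z : ℂ) : Submodule ℂ X.H1 :=
  Submodule.span ℂ {v | J v = z • v ∧ X.IsFil v}

/-- both eigenspaces of `J`, `J^2 = -d`, in `F^0` have dimension two -/
def IsBalanced (d : ℚ) (J : X.H1 → X.H1) : Prop :=
  ∀ z : ℂ, z ^ 2 = -(d : ℂ) → Module.finrank ℂ (X.filEigen J z) = 2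

/-- `(Y, E, JY, JE, T)` is an exterior square of `(X, J)`, `J^2 = -d`: `Y` and `E` are abelian
varieties of dimension six and one, `JY` and `JE` are endomorphisms (tensor `ℚ`), `JE^2 = -d`, and
`T` is a class in `H^1(X) ⊗ H^1(X) ⊗ H^1(Y) ⊗ H^1(E)`, i.e. a multilinear form, alternating in
the first two variables and
linear over `K = ℚ(J) = ℚ(JY) = ℚ(JE)`, which
is both a Grothendieck class and a Hodge class (of degree four on `X^2 × Y × E`), and nondegenerate,
so that `H_1(Y, ℚ)` is the dual of `⋀^2_K H_1(X, ℚ) ⊗_K H_1(E, ℚ)`. -/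
structure IsExteriorSquare (d : ℚ) (J : X.H1 → X.H1) (Y E : AbVar) (JY : Y.H1 → Y.H1)
    (JE : E.H1 → E.H1) (T : X.H1 → X.H1 → Y.H1 → E.H1 → ℂ) : Prop where
  dim : Y.g = 6 ∧ E.g = 1
  endo : Y.IsEnd JY ∧ E.IsEnd JE
  sq : ∀ l, JE (JE l) = (-(d : ℂ)) • l
  linear1 : ∀ v w l, IsLinearMap ℂ (fun u => T u v w l)
  linear2 : ∀ u w l, IsLinearMap ℂ (fun v => T u v w l)
  linear3 : ∀ u v l, IsLinearMap ℂ (fun w => T u v w l)
  linear4 : ∀ u v w, IsLinearMap ℂ (fun l => T u v w l)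
  alt : ∀ u w l, T u u w l = 0
  lin : ∀ u v w l, T (J u) v w l = T u (J v) w l ∧ T (J u) v w l = T u v (JY w) l ∧
    T (J u) v w l = T u v w (JE l)
  nondeg : ∀ w, (∀ u v l, T u v w l = 0) → w = 0
  deRham : ∀ u v w l, X.IsDeRham u → X.IsDeRham v → Y.IsDeRham w → E.IsDeRham l →
    IsAlgebraic ℚ (T u v w l)
  betti : ∀ u v w l, X.IsBetti u → X.IsBetti v → Y.IsBetti w → E.IsBetti l →
    ∃ c : ℚ, T u v w l = (2 * Real.pi * Complex.I) ^ 2 * c
  hodge : ∀ u v w l, (X.IsFil u ∧ X.IsFil v ∧ Y.IsFil w) ∨ (X.IsFil u ∧ X.IsFil v ∧ E.IsFil l) ∨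
    (X.IsFil u ∧ Y.IsFil w ∧ E.IsFil l) → T u v w l = 0

end AbVar

end Pool.Agent.GPC
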