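import Pool.Agent.Helper7.AFT.Defs
import Pool.Agent.Helper39.AF.Proj
import Pool.Agent.Helper39.AF.Split

/-!
Abelian varieties of dimension at most four without exceptions: common definitions of the modules.
-/

namespace Pool.Agent.GPC.AbVar

variable (X : AbVar)

/-- The exterior square with `T` as iterated linear map: `Y` and `E` are abelian
varieties of dimension six and one, `JY` and `JE` are endomorphisms (tensor `ℚ`), `JE^2 = -d`, and
`T` is a class in `H^1(X) ⊗ H^1(X) ⊗ H^1(Y) ⊗ H^1(E)`, alternating in the first two variables,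
linear over `K = ℚ(J) = ℚ(JY) = ℚ(JE)`, which
is both a Grothendieck class and a Hodge class (of degree four on `X^2 × Y × E`), and nondegenerate,
so that `H_1(Y, ℚ)` is the dual of `⋀^2_K H_1(X, ℚ) ⊗_K H_1(E, ℚ)`. -/
structure IsExtSquareL (d : ℚ) (J : X.H1 → X.H1) (Y E : AbVar) (JY : Y.H1 → Y.H1)
    (JE : E.H1 → E.H1) (T : X.H1 →ₗ[ℂ] X.H1 →ₗ[ℂ] Y.H1 →ₗ[ℂ] E.H1 →ₗ[ℂ] ℂ) : Prop where
  dim : Y.g = 6 ∧ E.g = 1
  endo : Y.IsEnd JY ∧ E.IsEnd JE
  sq : ∀ l, JE (JE l) = (-(d : ℂ)) • l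
  alt : ∀ u w l, T u u w l = 0
  lin : ∀ u v w l, T (J u) v w l = T u (J v) w l ∧ T (J u) v w l = T u v (JY w) l ∧
    T (J u) v w l = T u v w (JE l)
  nondeg : ∀ w, (∀ u v l, T u v w l = 0) → w = 0
  deRham : ∀ u v w l, X.IsDeRham u → X.IsDeRham v → Y.IsDeRham w → E.IsDeRham l →
    IsAlgebraic ℚ (T u v w l)
  betti : ∀ u v w l, X.IsBetti u → X.IsBetti v → Y.IsBetti w → E.IsBetti l →
    ∃ c : ℚ, T u v w l = (2 * Real.pi * Complex.I) ^ 2 * c
  hodge : ∀ u v w l, (X.IsFil u ∧ X.IsFil v ∧ Y.IsFil w) ∨ (X.IsFil u ∧ X.IsFil v ∧ E.IsFil l) ∨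
    (X.IsFil u ∧ Y.IsFil w ∧ E.IsFil l) → T u v w l = 0

end Pool.Agent.GPC.AbVar

namespace Pool.Agent.Helper7.AFT

open Module Pool.Agent.GPC Pool.Agent.Helper7 Pool.Agent.Helper39.AF

/-- bilinear functions -/
structure IsBil {V : Type*} [AddCommGroup V] [Module ℂ V] (f : V → V → ℂ) : Prop where
  add_left : ∀ u u' v, f (u + u') v = f u v + f u' v
  smul_left : ∀ (c : ℂ) u v, f (c • u) v = c * f u v
  add_right : ∀ u v v', f u (v + v') = f u v + f u v'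
  smul_right : ∀ (c : ℂ) u v, f u (c • v) = c * f u v

/-- `e'` is dual to `e` for the polarisation -/
def IsDual (X : AbVar) {ι : Type} [DecidableEq ι] (e e' : ι → X.H1) : Prop :=
  ∀ i j, X.pol (e i) (e' j) = if i = j then 1 else 0

/-- the type of a class in `H^1(X) ⊗ H^1(X) ⊗ H^1(Y) ⊗ H^1(E)` -/
abbrev Ten (X Y E : AbVar) : Type := X.H1 →ₗ[ℂ] X.H1 →ₗ[ℂ] Y.H1 →ₗ[ℂ] E.H1 →ₗ[ℂ] ℂ

/-- the contraction of `T`, `T` and `β` over `X` -/
noncomputable def Gam {X Y E : AbVar} (T : Ten X Y E) (β : X.H1 → X.H1 → X.H1 → X.H1 → ℂ)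
    {ι : Type} [Fintype ι] (e e' : ι → X.H1) (w : Y.H1) (l : E.H1) (w' : Y.H1) (l' : E.H1) : ℂ :=
  ∑ a, ∑ b, ∑ c, ∑ d, T (e a) (e b) w l * T (e c) (e d) w' l' * β (e' a) (e' b) (e' c) (e' d)

/-- the frame of `X` adapted to the eigenspaces of `J` and to the Hodge filtration, if the
eigenspace of `J` for `z` meets `F^0` in a line -/
structure Frame (X : AbVar) (J : X.H1 → X.H1) (z : ℂ) where
  b : Basis (Fin 4 × Bool) ℂ X.H1
  Jf : ∀ i, J (b (i, false)) = z • b (i, false)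
  Jt : ∀ i, J (b (i, true)) = (-z) • b (i, true)
  ft : ∀ i j, X.pol (b (i, false)) (b (j, true)) = if i = j then 1 else 0
  ff : ∀ i j, X.pol (b (i, false)) (b (j, false)) = 0
  tt : ∀ i j, X.pol (b (i, true)) (b (j, true)) = 0
  fil_f : X.IsFil (b (0, false))
  fil_t : ∀ i, i ≠ 0 → X.IsFil (b (i, true))

/-- the frame of an elliptic curve -/
structure FrameE (E : AbVar) (JE : E.H1 → E.H1) (z : ℂ) where
  g : Basis Bool ℂ E.H1
  Jf : JE (g false) = z • g false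
  Jt : JE (g true) = (-z) • g true
  ft : E.pol (g false) (g true) = 1
  fil : E.IsFil (g false)
  alg : ∀ ε, E.IsDeRham (g ε)

/-- the two matrices of a vector of `H_1(Y)` -/
noncomputable def mat {X Y E : AbVar} (T : Ten X Y E) {J : X.H1 → X.H1} {JE : E.H1 → E.H1} {z : ℂ}
    (F : Frame X J z) (G : FrameE E JE z) (ε : Bool) (w : Y.H1) (i j : Fin 4) : ℂ :=
  T (F.b (i, ε)) (F.b (j, ε)) w (G.g ε)

end Pool.Agent.Helper7.AFT
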