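import Pool.Agent.Helper7.AFT.T4

/-!
The elliptic curve of an exterior square: the action on its filtration.
-/

namespace Pool.Agent.Helper7.AFT

open Module Pool.Agent.GPC Pool.Agent.Helper7 Pool.Agent.Helper39.AF

namespace FilE

lemma finrank_H1' (X : AbVar) : finrank ℂ X.H1 = 2 * X.g := by
  rw [Module.finrank_fintype_fun_eq_card]
  simp [two_mul]

variable {X Y E : AbVar} {d : ℚ} {J : X.H1 → X.H1} {JY : Y.H1 → Y.H1} {JE : E.H1 → E.H1}
  {T : Ten X Y E} (hT : X.IsExtSquareL d J Y E JY JE T) {z : ℂ}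
  (hz0 : z ≠ 0) (F : Frame X J z) (G : Basis Bool ℂ E.H1)

/-- the eigenvalue -/
def ev (z : ℂ) (ε : Bool) : ℂ := if ε then -z else z

variable (hG : ∀ ε, JE (G ε) = ev z ε • G ε)

/-- the two matrices of a vector of `H_1(Y)` -/
noncomputable def mt {X Y E : AbVar} (T : Ten X Y E) {J : X.H1 → X.H1} {z : ℂ}
    (F : Frame X J z) (G : Basis Bool ℂ E.H1) (ε : Bool) (w : Y.H1) (i j : Fin 4) : ℂ :=
  T (F.b (i, ε)) (F.b (j, ε)) w (G ε)

lemma F_J (p : Fin 4 × Bool) : J (F.b p) = ev z p.2 • F.b p := by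
  obtain ⟨i, ε⟩ := p
  cases ε
  · simpa [ev] using F.Jf i
  · simpa [ev] using F.Jt i

include hz0 in
lemma ev_inj {ε ε' : Bool} (h : ev z ε = ev z ε') : ε = ε' := by
  have h0 := hz0
  have key : z ≠ -z := by
    intro h1
    apply h0
    have h2 : z + z = 0 := by
      nth_rewrite 2 [h1]
      ring
    have h3 : 2 * z = 0 := by linear_combination h2
    exact (mul_eq_zero.mp h3).resolve_left two_ne_zero
  cases ε <;> cases ε'
  · rfl
  · exact absurd (by simpa [ev] using h) key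
  · exact absurd (by simpa [ev] using h.symm) key
  · rfl

include hT hz0 hG in
lemma T_mixed (p q : Fin 4 × Bool) (w : Y.H1) (ε : Bool) (h : p.2 ≠ ε ∨ q.2 ≠ ε) :
    T (F.b p) (F.b q) w (G ε) = 0 := by
  have h1 := (hT.lin (F.b p) (F.b q) w (G ε)).1
  have h2 := (hT.lin (F.b p) (F.b q) w (G ε)).2.2
  rw [F_J F p, F_J F q] at h1
  rw [F_J F p, hG ε] at h2
  simp only [map_smul, LinearMap.smul_apply, smul_eq_mul] at h1 h2
  by_contra h3
  have h4 : ev z p.2 = ev z q.2 := mul_right_cancel₀ h3 h1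
  have h5 : ev z p.2 = ev z ε := mul_right_cancel₀ h3 h2
  rcases h with h | h
  · exact h (ev_inj hz0 h5)
  · exact h (ev_inj hz0 (h4.symm.trans h5))

include hT hz0 hG in
theorem T_eq (u v : X.H1) (w : Y.H1) (l : E.H1) : T u v w l =
    ∑ ε : Bool, ∑ i, ∑ j, F.b.repr u (i, ε) * F.b.repr v (j, ε) * G.repr l ε *
      mt T F G ε w i j := by
  have e1 : T u v w l = ∑ p, ∑ q, ∑ ε, F.b.repr u p * F.b.repr v q * G.repr l ε *
      T (F.b p) (F.b q) w (G ε) := by
    have s1 : T u v w l = ∑ p, F.b.repr u p * T (F.b p) v w l := by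
      conv_lhs => rw [← F.b.sum_repr u]
      simp only [map_sum, map_smul, LinearMap.sum_apply, LinearMap.smul_apply, smul_eq_mul]
    have s2 : ∀ p, T (F.b p) v w l = ∑ q, F.b.repr v q * T (F.b p) (F.b q) w l := by
      intro p
      conv_lhs => rw [← F.b.sum_repr v]
      simp only [map_sum, map_smul, LinearMap.sum_apply, LinearMap.smul_apply, smul_eq_mul]
    have s3 : ∀ p q, T (F.b p) (F.b q) w l = ∑ ε, G.repr l ε * T (F.b p) (F.b q) w (G ε) := by
      intro p q
      conv_lhs => rw [← G.sum_repr l]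
      simp only [map_sum, map_smul, smul_eq_mul]
    rw [s1]
    refine Finset.sum_congr rfl fun p _ => ?_
    rw [s2, Finset.mul_sum]
    refine Finset.sum_congr rfl fun q _ => ?_
    rw [s3, Finset.mul_sum, Finset.mul_sum]
    refine Finset.sum_congr rfl fun ε _ => ?_
    ring
  rw [e1]
  have e2 : ∀ p q, (∑ ε, F.b.repr u p * F.b.repr v q * G.repr l ε *
      T (F.b p) (F.b q) w (G ε)) = if p.2 = q.2 then F.b.repr u p * F.b.repr v q *
        G.repr l p.2 * T (F.b p) (F.b q) w (G p.2) else 0 := by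
    intro p q
    split_ifs with h
    · refine Finset.sum_eq_single p.2 (fun ε _ hε => ?_) (fun h => absurd (Finset.mem_univ _) h)
      rw [T_mixed hT hz0 F G hG p q w ε (Or.inl (Ne.symm hε)), mul_zero]
    · refine Finset.sum_eq_zero fun ε _ => ?_
      by_cases h1 : p.2 = ε
      · rw [T_mixed hT hz0 F G hG p q w ε (Or.inr fun h2 => h (h1.trans h2.symm)), mul_zero]
      · rw [T_mixed hT hz0 F G hG p q w ε (Or.inl h1), mul_zero]
  simp only [e2]
  rw [Fintype.sum_prod_type, Finset.sum_comm]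
  refine Finset.sum_congr rfl fun ε _ => ?_
  refine Finset.sum_congr rfl fun i _ => ?_
  rw [Fintype.sum_prod_type]
  refine Finset.sum_congr rfl fun j _ => ?_
  rw [Finset.sum_eq_single ε]
  · rw [if_pos rfl]
    rfl
  · intro ε' _ h
    rw [if_neg (Ne.symm h)]
  · intro h
    exact absurd (Finset.mem_univ _) h

include hT in
lemma T_alt (u v : X.H1) (w : Y.H1) (l : E.H1) : T u v w l = - T v u w l := by
  have h1 := hT.alt (u + v) w l
  simp only [map_add, LinearMap.add_apply] at h1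
  rw [hT.alt u w l, hT.alt v w l] at h1
  linear_combination h1

include hT in
lemma mat_alt' (ε : Bool) (w : Y.H1) (i j : Fin 4) :
    mt T F G ε w i j = - mt T F G ε w j i := T_alt hT _ _ _ _

/-- the six pairs -/
def pr : Fin 6 → Fin 4 × Fin 4 := ![(0, 1), (0, 2), (0, 3), (1, 2), (1, 3), (2, 3)]

lemma alt_ext (M N : Fin 4 → Fin 4 → ℂ) (hM : ∀ i j, M i j = - M j i)
    (hN : ∀ i j, N i j = - N j i) (h : ∀ k, M (pr k).1 (pr k).2 = N (pr k).1 (pr k).2)
    (i j : Fin 4) : M i j = N i j := by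
  have hd : ∀ (P : Fin 4 → Fin 4 → ℂ), (∀ i j, P i j = - P j i) → ∀ i, P i i = 0 := by
    intro P hP i
    have h1 := hP i i
    have h2 : 2 * P i i = 0 := by linear_combination h1
    exact (mul_eq_zero.mp h2).resolve_left two_ne_zero
  have key : ∀ i j : Fin 4, i = j ∨ (∃ k, pr k = (i, j)) ∨ (∃ k, pr k = (j, i)) := by decide
  rcases key i j with h1 | ⟨k, h1⟩ | ⟨k, h1⟩
  · subst h1
    rw [hd M hM, hd N hN]
  · have h2 := h k
    rw [h1] at h2
    exact h2
  · have h2 := h k
    rw [h1] at h2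
    rw [hM, hN, h2]

/-- the entries of the matrices as a linear map -/
noncomputable def ent (T : Ten X Y E) (F : Frame X J z) (G : Basis Bool ℂ E.H1)
    (κ : Type) (s : κ → Bool × Fin 4 × Fin 4) : Y.H1 →ₗ[ℂ] (κ → ℂ) where
  toFun w := fun k => mt T F G (s k).1 w (s k).2.1 (s k).2.2
  map_add' := by
    intro a b
    funext k
    simp [mt]
  map_smul' := by
    intro c a
    funext k
    simp [mt]

include hT hz0 hG in
lemma mat_inj (w : Y.H1) (h : ∀ ε i j, mt T F G ε w i j = 0) : w = 0 := by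
  refine hT.nondeg w fun u v l => ?_
  rw [T_eq hT hz0 F G hG]
  simp [h]

include hT hz0 hG in
theorem mat_surj (M : Bool → Fin 4 → Fin 4 → ℂ) (hM : ∀ ε i j, M ε i j = - M ε j i) :
    ∃ w, ∀ ε i j, mt T F G ε w i j = M ε i j := by
  let L := ent T F G (Bool × Fin 6) (fun k => (k.1, pr k.2))
  have hL : ∀ w k, L w k = mt T F G k.1 w (pr k.2).1 (pr k.2).2 := fun w k => rfl
  have hinj : Function.Injective L := by
    rw [injective_iff_map_eq_zero]
    intro w hw
    refine mat_inj hT hz0 F G hG w fun ε i j => ?_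
    refine alt_ext (fun i j => mt T F G ε w i j) (fun _ _ => 0) (fun i j => mat_alt' hT F G ε w i j)
      (fun _ _ => by simp) (fun k => ?_) i j
    have h1 := congrFun hw (ε, k)
    rw [hL] at h1
    exact h1
  have hfr : finrank ℂ Y.H1 = finrank ℂ (Bool × Fin 6 → ℂ) := by
    rw [finrank_H1', hT.dim.1, Module.finrank_fintype_fun_eq_card]
    simp
  have hsurj := (LinearMap.injective_iff_surjective_of_finrank_eq_finrank hfr).mp hinj
  obtain ⟨w, hw⟩ := hsurj (fun k => M k.1 (pr k.2).1 (pr k.2).2)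
  refine ⟨w, fun ε i j => ?_⟩
  refine alt_ext (fun i j => mt T F G ε w i j) (fun i j => M ε i j)
    (fun i j => mat_alt' hT F G ε w i j) (hM ε) (fun k => ?_) i j
  have h1 := congrFun hw (ε, k)
  rw [hL] at h1
  exact h1


end FilE

/-- the quadratic field acts on the filtration of `H_1(E)` in the same way as on the line -/
theorem fil_of_square {X Y E : AbVar} {d : ℚ} {J : X.H1 → X.H1} {JY : Y.H1 → Y.H1}
    {JE : E.H1 → E.H1} {T : Ten X Y E} (hX : X.g = 4) (hJ : X.IsWeilStructure d J)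
    (hT : X.IsExtSquareL d J Y E JY JE T) {z : ℂ} (hz : z ^ 2 = -(d : ℂ))
    (h1 : finrank ℂ (X.filEigen J z) = 1) (l : E.H1) (hl : E.IsFil l) : JE l = z • l := by
  classical
  have hz0 := z_ne hJ.1 hz
  have hz' : (-z) ^ 2 = -(d : ℂ) := by rw [neg_sq, hz]
  obtain ⟨F⟩ := exists_frame X hX d J hJ z hz h1
  have hE := hT.dim.2
  have hlin := hT.endo.2.linear
  obtain ⟨a0, ha0⟩ : ∃ a0 : Fin E.g, a0 = ⟨0, by omega⟩ := ⟨_, rfl⟩
  have hall : ∀ a : Fin E.g, a = a0 := fun a => Fin.ext (by have := a.2; have := a0.2; omega)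
  obtain ⟨u0, hu0⟩ : ∃ u0 : E.H1, u0 = Sum.elim (fun _ => 0) (fun _ => 1) := ⟨_, rfl⟩
  have hu0F : E.IsFil u0 := by intro a; rw [hu0]; rfl
  have hdec : ∀ v : E.H1, E.IsFil v → v = v (.inr a0) • u0 := by
    intro v hv
    funext s
    rcases s with a | a
    · rw [hv a, Pi.smul_apply, hu0]
      simp
    · rw [hall a, Pi.smul_apply, hu0]
      simp
  obtain ⟨y, hy⟩ : ∃ y, JE u0 = y • u0 := ⟨_, hdec _ (hT.endo.2.hodge u0 hu0F)⟩
  have hu00 : u0 ≠ 0 := by
    intro h
    have h2 := congrFun h (.inr a0)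
    rw [hu0] at h2
    simp at h2
  have hyd : y ^ 2 = -(d : ℂ) := by
    have h2 := hT.sq u0
    rw [hy, hlin.map_smul, hy, smul_smul, ← sub_eq_zero, ← sub_smul, smul_eq_zero] at h2
    rw [pow_two]
    exact sub_eq_zero.mp (h2.resolve_right hu00)
  have hyz : y = z := by
    have h3 : (y - z) * (y + z) = 0 := by linear_combination hyd - hz
    rcases mul_eq_zero.mp h3 with h4 | h4
    · exact sub_eq_zero.mp h4
    · exfalso
      have hyz := eq_neg_of_add_eq_zero_left h4
      obtain ⟨G'⟩ := exists_frameE E hE d hJ.1 JE hT.endo.2 hT.sq (-z) hz' (fun l hl => by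
        rw [hdec l hl, hlin.map_smul, hy, hyz, smul_comm])
      obtain ⟨G, hG⟩ : ∃ G : Basis Bool ℂ E.H1, ∀ ε, G ε = G'.g (!ε) :=
        ⟨G'.g.reindex Equiv.boolNot, fun ε => by
          rw [Basis.reindex_apply]
          rfl⟩
      have hGJ : ∀ ε, JE (G ε) = FilE.ev z ε • G ε := by
        intro ε
        rw [hG]
        cases ε
        · have h5 := G'.Jt
          rw [neg_neg] at h5
          simpa [FilE.ev] using h5
        · have h5 := G'.Jf
          simpa [FilE.ev] using h5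
      obtain ⟨w, hw⟩ := FilE.mat_surj hT hz0 F G hGJ
        (fun ε i j => if i = 1 ∧ j = 2 then 1 else if i = 2 ∧ j = 1 then -1 else 0) (by
          intro ε i j
          fin_cases i <;> fin_cases j <;> simp)
      have h6 := hw true 1 2
      rw [if_pos ⟨rfl, rfl⟩] at h6
      have h7 : FilE.mt T F G true w 1 2 = 0 :=
        hT.hodge _ _ _ _ (Or.inr (Or.inl ⟨F.fil_t 1 (by decide), F.fil_t 2 (by decide), by
          rw [hG]; exact G'.fil⟩))
      rw [h7] at h6
      exact zero_ne_one h6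
  rw [hdec l hl, hlin.map_smul, hy, hyz, smul_comm]

end Pool.Agent.Helper7.AFT
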