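import Pool.Agent.Helper7.AFT.Prod31
import Pool.Agent.Helper7.AFT.Simple
import Pool.Agent.Helper7.AFT.FilE
import Pool.Agent.Helper75.AFT.T7
import Pool.Agent.Helper7.AF.Assembly

/-!
Abelian varieties of dimension at most four: the theorem without exceptional endomorphism algebras.
-/

namespace Pool.Agent.Helper7.AFT

open Module NumberField Pool.Agent.GPC Pool.Agent.Helper7 Pool.Agent.Helper39.AF
open Pool.Agent.Helper39.AFD

/-- the three cases -/
def Tri (X : AbVar) : Prop :=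
  (∀ (k : ℕ) (α : X.Class (2 * k)), X.IsGrothendieckClass k α → X.IsDivisorialPlusWeil k α) ∨
    (X.g = 4 ∧ ∃ d, X.IsQuadEnd d) ∨
    (X.g = 4 ∧ ∃ d J, X.IsWeilStructure d J ∧ X.IsBalanced d J)

lemma tri_of_isogeny {X : AbVar} {I : Type} [Fintype I]
    {A : I → AbVar} {n : I → ℕ}
    {Φ : X.H1 ≃ₗ[ℂ] H1 A n} (hΦ : IsIsogeny X A n Φ) (hg : ∀ i, (A i).g ≠ 0)
    (hs : ∀ i, (A i).IsSimple)
    (hA : ∀ i j, i ≠ j → ∀ f, (A i).IsMor (A j) f → ∀ v, f v = 0) (hn : ∀ i, n i ≠ 0)
    {ι : ∀ i, (A i).H1 → X.H1} (hι : ∀ i, (A i).IsMor X (ι i) ∧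
      ∀ u v, X.pol (ι i u) (ι i v) = (A i).pol u v)
    (hc : ∀ d J, IsWeilStructure A n d J → ∀ s, X.IsEnd s → X.IsAdjoint s s →
      ∀ v, J (Φ (s (Φ.symm v))) = Φ (s (Φ.symm (J v))))
    (hX : X.g ≤ 4) : Tri X := by
  classical
  have hgs := g_eq_of_isogeny Φ
  have hd : ∑ i, n i * (A i).g ≤ 4 := by rw [hgs]; exact hX
  by_cases hex4 : ∃ i d, (A i).g = 4 ∧ (A i).IsQuadEnd d
  · obtain ⟨i, d, h4, hq⟩ := hex4
    obtain ⟨h1, h2⟩ := numbers_four hg hn hd i h4
    have hX4 : X.g = 4 := by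
      have h3 : n i * (A i).g ≤ ∑ x, n x * (A x).g :=
        Finset.single_le_sum (f := fun x => n x * (A x).g) (fun _ _ => Nat.zero_le _)
          (Finset.mem_univ i)
      have h5 : n i * (A i).g = 4 := by rw [h2 i, h4]
      rw [h5, hgs] at h3
      exact le_antisymm hX h3
    exact Or.inr (Or.inl ⟨hX4, d, quad_back hΦ hA h2 i h1 d hq⟩)
  by_cases hex31 : ∃ i j d, (A i).g = 3 ∧ (A j).g = 1 ∧ (A i).IsQuadEnd d ∧ (A j).IsQuadEnd d
  · obtain ⟨i, j, d, h3, h1, hqi, hqj⟩ := hex31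
    obtain ⟨h4, h5, h6⟩ := numbers_three_one hg hn hd i j h3 h1
    have hX4 : X.g = 4 := by rw [← hgs]; exact h6
    exact Or.inr (Or.inr ⟨hX4, d, exists_balanced hΦ hs hA h5 hc i j h4 h3 h1 d hqi hqj⟩)
  · left
    intro k α hα
    have h := all_four A n hg hs hA hn hd (fun i d h4 hq => absurd ⟨i, d, h4, hq⟩ hex4)
      (fun i j d h3 h1 hqi hqj => absurd ⟨i, j, d, h3, h1, hqi, hqj⟩ hex31) k _
      (grothendieck_transfer hΦ α hα)
    exact divisorialPlusWeil_of hΦ hc hι α h

theorem tri (X : AbVar) (hX : X.g ≤ 4) : Tri X := by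
  classical
  by_cases hXs : X.IsSimple ∧ X.g ≠ 0
  · obtain ⟨hs, hg0⟩ := hXs
    let A : Unit → AbVar := fun _ => X
    let n : Unit → ℕ := fun _ => 1
    let Φ : X.H1 ≃ₗ[ℂ] H1 A n :=
      { toFun := fun v _ _ => v
        invFun := fun y => y () 0
        map_add' := fun _ _ => rfl
        map_smul' := fun _ _ => rfl
        left_inv := fun _ => rfl
        right_inv := fun y => by
          funext i m
          exact congrArg (y i) (Subsingleton.elim (α := Fin 1) 0 m) }
    have hΦ : IsIsogeny X A n Φ :=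
      ⟨fun v => ⟨fun h _ _ => h, fun h => h () 0⟩, fun v => ⟨fun h _ _ => h, fun h => h () 0⟩,
        fun v => ⟨fun h _ _ => h, fun h => h () 0⟩⟩
    refine tri_of_isogeny hΦ (fun _ => hg0) (fun _ => hs)
      (fun i j hij => absurd (Subsingleton.elim i j) hij) (fun _ => one_ne_zero)
      (ι := fun _ v => v) (fun _ => ⟨isMor_id X, fun _ _ => rfl⟩) ?_ hX
    rintro d J ⟨-, hJE, -, -, hJ | ⟨i, -, -, hJ⟩⟩ s hsE hsym v
    · exact hJ _ (endo_forth hΦ hsE) v
    · obtain ⟨q, hq⟩ := hJ s hsE hsym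
      have h1 : ∀ v : H1 A n, Φ (s (Φ.symm v)) = (q : ℂ) • v := by
        intro v
        rw [hq, map_smul, Φ.apply_symm_apply]
      rw [h1, h1, hJE.linear.map_smul]
  · obtain ⟨I, _, A, n, Φ, ι, hΦ, hg, hs, hA, hn, -, hι⟩ := Helper39.AF.exists_decomp X
    refine tri_of_isogeny hΦ hg hs hA hn hι ?_ hX
    rintro d J ⟨-, hJE, -, -, hJ | ⟨i, hi, hni, -⟩⟩ s hsE hsym v
    · exact hJ _ (endo_forth hΦ hsE) v
    · exfalso
      apply hXs
      have hn1 : ∀ l, n l = 1 := fun l => by rw [hi l]; exact hni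
      refine ⟨?_, ?_⟩
      · intro f hf hf0
        obtain ⟨T, hT, hfT⟩ := endo_diag hn1 hA (endo_forth hΦ hf)
        obtain ⟨x, hx⟩ := hf0
        have hTinj : Function.Injective (T i) := by
          apply hs i _ (hT i)
          by_contra hcon
          push Not at hcon
          apply hx
          apply Φ.injective
          rw [map_zero]
          funext l m
          have h1 := hfT (Φ x) l m
          rw [Φ.symm_apply_apply] at h1
          rw [h1]
          have hl := hi l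
          subst hl
          exact hcon _
        intro u u' huu
        apply Φ.injective
        funext l m
        have hl := hi l
        subst hl
        apply hTinj
        have h1 := hfT (Φ u) l m
        have h2 := hfT (Φ u') l m
        rw [Φ.symm_apply_apply] at h1 h2
        rw [← h1, ← h2, huu]
      · intro h0
        have hgs := g_eq_of_isogeny Φ
        rw [h0] at hgs
        have h3 : n i * (A i).g ≤ ∑ x, n x * (A x).g :=
          Finset.single_le_sum (f := fun x => n x * (A x).g) (fun _ _ => Nat.zero_le _)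
            (Finset.mem_univ i)
        rw [hgs, hni, one_mul] at h3
        exact hg i (Nat.le_zero.mp h3)

/-- the Weil classes of a sum are Hodge classes -/
lemma refine_sum {X : AbVar}
    (hw : ∀ w : X.Class (2 * 2), X.IsWeil 2 w → X.IsGrothendieckClass 2 w → X.IsInFil 2 w)
    (h : ∀ (k : ℕ) (α : X.Class (2 * k)), X.IsGrothendieckClass k α ↔
      ∃ (m : ℕ) (w : Fin m → X.Class (2 * k)),
        (∀ r, X.IsWeil k (w r) ∧ X.IsGrothendieckClass k (w r)) ∧
        X.IsDivisorialClass k (α - ∑ r, w r)) (k : ℕ) (α : X.Class (2 * k)) :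
    X.IsGrothendieckClass k α ↔
      ∃ (m : ℕ) (w : Fin m → X.Class (2 * k)),
        (∀ r, X.IsWeil k (w r) ∧ X.IsGrothendieckClass k (w r) ∧ X.IsInFil k (w r)) ∧
        X.IsDivisorialClass k (α - ∑ r, w r) := by
  rw [h k α]
  constructor
  · rintro ⟨m, w, h1, h2⟩
    refine ⟨m, w, fun r => ⟨(h1 r).1, (h1 r).2, ?_⟩, h2⟩
    have h3 := (h1 r).1.1.1
    subst h3
    exact hw _ (h1 r).1 (h1 r).2
  · rintro ⟨m, w, h1, h2⟩
    exact ⟨m, w, fun r => ⟨(h1 r).1, (h1 r).2.1⟩, h2⟩

/-- a class killed by one element of the quadratic field is killed by the generator -/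
lemma kill_of_kill {X : AbVar} {d d' : ℚ} {J J' : X.H1 → X.H1} (HQ : X.IsQuadBy d J)
    (hns : ¬ ∃ c : ℂ, ∀ v, X.IsFil v → J v = c • v) (hd' : 0 < d') (hg : 0 < X.g)
    (hJ2 : ∀ v, J' (J' v) = (-(d' : ℂ)) • v) {a b : ℚ}
    (hab : ∀ v, J' v = (a : ℂ) • v + (b : ℂ) • J v) {k : ℕ} (α : X.Class (2 * k))
    (hk : ∀ v : Fin (2 * k) → X.H1, ∑ r, α (Function.update v r (J' (v r))) = 0)
    (v : Fin (2 * k) → X.H1) : ∑ r, α (Function.update v r (J (v r))) = 0 := by
  have h2 : ∀ v, ((a : ℂ) ^ 2 - d * b ^ 2 + d') • v + (2 * a * b : ℂ) • J v = 0 := by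
    intro v
    have h3 := hJ2 v
    rw [hab, hab, HQ.endo.linear.map_add, HQ.endo.linear.map_smul, HQ.endo.linear.map_smul,
      HQ.sq] at h3
    have h4 : ((a : ℂ) ^ 2 - d * b ^ 2 + d') • v + (2 * a * b : ℂ) • J v =
        ((a : ℂ) • ((a : ℂ) • v + (b : ℂ) • J v) + (b : ℂ) • ((a : ℂ) • J v +
          (b : ℂ) • ((-(d : ℂ)) • v))) - (-(d' : ℂ)) • v := by module
    rw [h4, h3, sub_self]
  have hab0 : (a : ℂ) * b = 0 := by
    by_contra hne
    apply hns
    refine ⟨-((2 * a * b : ℂ)⁻¹ * ((a : ℂ) ^ 2 - d * b ^ 2 + d')), fun v _ => ?_⟩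
    have h5 : (2 * a * b : ℂ) ≠ 0 := by
      rw [mul_assoc]
      exact mul_ne_zero two_ne_zero hne
    have h6 : (2 * a * b : ℂ) • J v = -(((a : ℂ) ^ 2 - d * b ^ 2 + d') • v) :=
      eq_neg_of_add_eq_zero_right (h2 v)
    have h7 : J v = (2 * a * b : ℂ)⁻¹ • ((2 * a * b : ℂ) • J v) := by
      rw [smul_smul, inv_mul_cancel₀ h5, one_smul]
    rw [h7, h6]
    module
  have hb : (b : ℂ) ≠ 0 := by
    intro hb
    obtain ⟨v0, hv0⟩ : ∃ v : X.H1, v ≠ 0 := by
      refine ⟨fun s => 1, fun h => ?_⟩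
      have h1 := congrFun h (Sum.inl ⟨0, hg⟩)
      simp at h1
    have h3 := h2 v0
    rw [hb, mul_zero, zero_smul, add_zero] at h3
    have h4 := (smul_eq_zero.mp h3).resolve_right hv0
    have h5 : ((a ^ 2 + d' : ℚ) : ℂ) = 0 := by
      push_cast
      rw [← h4]
      ring
    have h6 : (a ^ 2 + d' : ℚ) = 0 := by exact_mod_cast h5
    nlinarith [sq_nonneg a]
  have ha : (a : ℂ) = 0 := (mul_eq_zero.mp hab0).resolve_right hb
  have h3 : (b : ℂ) * ∑ r, α (Function.update v r (J (v r))) = 0 := by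
    rw [← hk v, Finset.mul_sum]
    refine Finset.sum_congr rfl fun r _ => ?_
    rw [hab, ha, zero_smul, zero_add, AlternatingMap.map_update_smul, smul_eq_mul]
  exact (mul_eq_zero.mp h3).resolve_left hb

/-- the class of an exterior square as iterated linear map -/
lemma exists_linear {X Y E : AbVar} {d : ℚ} {J : X.H1 → X.H1} {JY : Y.H1 → Y.H1}
    {JE : E.H1 → E.H1} {T : X.H1 → X.H1 → Y.H1 → E.H1 → ℂ}
    (hT : X.IsExteriorSquare d J Y E JY JE T) : ∃ T' : Ten X Y E,
      X.IsExtSquareL d J Y E JY JE T' := by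
  obtain ⟨T', hT'⟩ : ∃ T' : Ten X Y E, ∀ u v w l, T' u v w l = T u v w l := by
    refine ⟨{ toFun := fun u =>
                { toFun := fun v =>
                    { toFun := fun w => (hT.linear4 u v w).mk' _
                      map_add' := fun w w' => LinearMap.ext fun l => (hT.linear3 u v l).map_add w w'
                      map_smul' := fun c w => LinearMap.ext fun l => (hT.linear3 u v l).map_smul c w }
                  map_add' := fun v v' => LinearMap.ext fun w => LinearMap.ext fun l =>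
                    (hT.linear2 u w l).map_add v v'
                  map_smul' := fun c v => LinearMap.ext fun w => LinearMap.ext fun l =>
                    (hT.linear2 u w l).map_smul c v }
              map_add' := fun u u' => LinearMap.ext fun v => LinearMap.ext fun w =>
                LinearMap.ext fun l => (hT.linear1 v w l).map_add u u'
              map_smul' := fun c u => LinearMap.ext fun v => LinearMap.ext fun w =>
                LinearMap.ext fun l => (hT.linear1 v w l).map_smul c u }, fun _ _ _ _ => rfl⟩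
  refine ⟨T', ⟨hT.dim, hT.endo, hT.sq, ?_, ?_, ?_, ?_, ?_, ?_⟩⟩
  · intro u w l
    rw [hT']; exact hT.alt u w l
  · intro u v w l
    rw [hT', hT', hT', hT']; exact hT.lin u v w l
  · intro w h
    refine hT.nondeg w fun u v l => ?_
    rw [← hT']; exact h u v l
  · intro u v w l
    rw [hT']; exact hT.deRham u v w l
  · intro u v w l
    rw [hT']; exact hT.betti u v w l
  · intro u v w l
    rw [hT']; exact hT.hodge u v w l

/-- **The theorem without exceptional endomorphism algebras** -/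
theorem main_aft (X : AbVar) (hX : X.g ≤ 4) :
    (∀ (k : ℕ) (α : X.Class (2 * k)), X.IsGrothendieckClass k α ↔
      ∃ (m : ℕ) (w : Fin m → X.Class (2 * k)),
        (∀ r, X.IsWeil k (w r) ∧ X.IsGrothendieckClass k (w r) ∧ X.IsInFil k (w r)) ∧
        X.IsDivisorialClass k (α - ∑ r, w r)) ∨
    (X.g = 4 ∧ ∃ (d : ℚ) (J : X.H1 → X.H1), X.IsWeilStructure d J ∧
      ((X.IsBalanced d J ∧ ∀ w : X.Class (2 * 2),
          (∀ v r s, w (Function.update v r (J (v r))) = w (Function.update v s (J (v s)))) →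
          X.IsGrothendieckClass 2 w → w = 0) ∨
        ((∃ z : ℂ, z ^ 2 = -(d : ℂ) ∧ finrank ℂ (X.filEigen J z) = 1) ∧
          ∀ (Y E : AbVar) (JY : Y.H1 → Y.H1) (JE : E.H1 → E.H1)
            (T : X.H1 → X.H1 → Y.H1 → E.H1 → ℂ), ¬ X.IsExteriorSquare d J Y E JY JE T))) := by
  by_contra hcon
  rw [not_or] at hcon
  obtain ⟨hcon, hno⟩ := hcon
  -- the consequences of the failure of the second possibility
  have hb : X.g = 4 → ∀ d J, X.IsWeilStructure d J → X.IsBalanced d J →
      ∃ w : X.Class (2 * 2), w ≠ 0 ∧ X.IsWeil 2 w ∧ X.IsGrothendieckClass 2 w := by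
    intro h4 d J hJ hJb
    by_contra h
    push Not at h
    refine hno ⟨h4, d, J, hJ, Or.inl ⟨hJb, fun w hw hG => ?_⟩⟩
    by_contra hw0
    exact h w hw0 ⟨⟨rfl, h4⟩, hG.2, d, J, hJ, hw⟩ hG
  have hu : X.g = 4 → ∀ d J, X.IsWeilStructure d J → ¬ X.IsBalanced d J →
      ∃ (z : ℂ) (Y E : AbVar) (JY : Y.H1 → Y.H1) (JE : E.H1 → E.H1) (T : Ten X Y E),
        z ^ 2 = -(d : ℂ) ∧ finrank ℂ (X.filEigen J z) = 1 ∧ (∀ l, E.IsFil l → JE l = z • l) ∧
        X.IsExtSquareL d J Y E JY JE T := by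
    intro h4 d J hJ hJb
    obtain ⟨z, hz, h1⟩ := exists_line h4 hJ hJb
    by_contra h
    push Not at h
    refine hno ⟨h4, d, J, hJ, Or.inr ⟨⟨z, hz, h1⟩, fun Y E JY JE T0 hT0 => ?_⟩⟩
    obtain ⟨T, hT⟩ := exists_linear hT0
    exact h z Y E JY JE T hz h1 (fil_of_square h4 hJ hT hz h1) hT
  have hw : ∀ w : X.Class (2 * 2), X.IsWeil 2 w → X.IsGrothendieckClass 2 w → X.IsInFil 2 w := by
    rintro w ⟨⟨-, h4⟩, -, d, J, hJ, hwJ⟩ hG
    by_cases hJb : X.IsBalanced d J
    · exact inFil_of_balanced hJ hJb w hwJ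
    · obtain ⟨z, Y, E, JY, JE, T, hz, h1, hl, hT⟩ := hu h4 d J hJ hJb
      rw [no_weil X h4 d J hJ z hz h1 Y E JY JE T hT hl w hG hwJ]
      exact fun _ _ => rfl
  -- a Weil class is enough
  have hweil : (∃ w : X.Class (2 * 2), w ≠ 0 ∧ X.IsWeil 2 w ∧ X.IsGrothendieckClass 2 w) →
      False := by
    intro h
    exact hcon (refine_sum hw fun k α => intrinsic_iff (fun _ _ A n => all_four A n) X hX
      (fun _ _ => h) k α)
  rcases tri X hX with h | ⟨h4, d, hq⟩ | ⟨h4, d, J, hJ, hJb⟩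
  · refine hcon (refine_sum hw fun k α => ⟨fun hα => split hα (h k α hα), ?_⟩)
    rintro ⟨m, w, hw, hδ⟩
    have h1 : α = (α - ∑ r, w r) + ∑ r, w r := by abel
    rw [h1]
    exact (Helper39.AF.GS X k).add_mem (grothendieck_of_divisorial hδ)
      ((Helper39.AF.GS X k).sum_mem fun r _ => (hw r).2)
  · -- simple fourfolds with an imaginary quadratic field
    obtain ⟨hd, J, hJE, hJ2, hall⟩ := hq
    have HQ : X.IsQuadBy d J := ⟨hd, hJE, hJ2, hall⟩
    have hJ : X.IsWeilStructure d J := by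
      refine ⟨hd, hJE, hJ2, ?_, fun s hs _ v => HQ.comm hJE hs v⟩
      exact notScalarProp X HQ.isSimple (by omega) d hd J hJE hJ2 (quad_skew HQ (by omega))
    by_cases hJb : X.IsBalanced d J
    · exact hweil (hb h4 d J hJ hJb)
    · obtain ⟨z, Y, E, JY, JE, T, hz, h1, hl, hT⟩ := hu h4 d J hJ hJb
      rcases intrinsic_dich (fun _ _ A n => all_four A n) (fun _ _ A n => three_one_dich A n)
        (fun _ _ A n => four_dich A n) X hX with h | ⟨-, -, h⟩
      · exact hcon (refine_sum hw h)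
      · apply hcon
        intro k α
        constructor
        · intro hα
          obtain ⟨d', J', hJ', hk⟩ := h k α hα
          -- `J'` is a multiple of `J`
          obtain ⟨a, b, hab⟩ := HQ.all J' hJ'.2.1
          have hkill := kill_of_kill HQ hJ.2.2.2.1 hJ'.1 (by omega) hJ'.2.2.1 hab α hk
          refine ⟨0, Fin.elim0, fun r => Fin.elim0 r, ?_⟩
          rw [Finset.univ_eq_empty, Finset.sum_empty, sub_zero]
          exact simple_all h4 HQ hJ hz h1 hT hl k α hα hkill
        · rintro ⟨m, w, hw, hδ⟩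
          have h1 : α = (α - ∑ r, w r) + ∑ r, w r := by abel
          rw [h1]
          exact (Helper39.AF.GS X k).add_mem (grothendieck_of_divisorial hδ)
            ((Helper39.AF.GS X k).sum_mem fun r _ => (hw r).2.1)
  · exact hweil (hb h4 d J hJ hJb)

end Pool.Agent.Helper7.AFT
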