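import Pool.Agent.Helper7.AF.Pair

/-!
Linear algebra for the trace criterion for Weil classes: adjoint operators, the action on
alternating forms, traces on the eigenspaces of `J`.
-/

namespace Pool.Agent.Helper7.AFT

open Module Pool.Agent.Helper7

section lin

variable {V : Type} [AddCommGroup V] [Module ℂ V]

/-- adjoint operators have the same trace -/
lemma trace_adjoint [FiniteDimensional ℂ V]
    (ω : V →ₗ[ℂ] V →ₗ[ℂ] ℂ) (nd : ∀ x, (∀ y, ω x y = 0) → x = 0) (A B : Module.End ℂ V)
    (h : ∀ x y, ω (A x) y = ω x (B y)) : LinearMap.trace ℂ V A = LinearMap.trace ℂ V B := by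
  have hinj : Function.Injective ω := by
    rw [← LinearMap.ker_eq_bot, Submodule.eq_bot_iff]
    intro x hx
    exact nd x fun y => by rw [LinearMap.mem_ker.mp hx]; rfl
  let Φ : V ≃ₗ[ℂ] Module.Dual ℂ V :=
    LinearEquiv.ofInjectiveOfFinrankEq ω hinj (Subspace.dual_finrank_eq).symm
  have h1 : Φ.conj A = Module.Dual.transpose (R := ℂ) B := by
    apply LinearMap.ext
    intro φ
    obtain ⟨x, rfl⟩ := Φ.surjective φ
    rw [LinearEquiv.conj_apply_apply, LinearEquiv.symm_apply_apply]
    apply LinearMap.ext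
    intro y
    exact h x y
  have h2 := LinearMap.trace_conj' A Φ
  rw [h1] at h2
  have h3 := LinearMap.trace_transpose' (R := ℂ) B
  rw [h3] at h2
  exact h2.symm

variable {ι : Type} [Fintype ι] [DecidableEq ι]

/-- infinitesimal action of an endomorphism on an alternating form -/
noncomputable def actAlt (L : Module.End ℂ V) (w : V [⋀^ι]→ₗ[ℂ] ℂ) : V [⋀^ι]→ₗ[ℂ] ℂ :=
  { actForm L (w : MultilinearMap ℂ (fun _ : ι => V) ℂ) with
    map_eq_zero_of_eq' := by
      intro v i j hij hne
      show actForm L (w : MultilinearMap ℂ (fun _ : ι => V) ℂ) v = 0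
      rw [actForm_apply, ← Finset.add_sum_erase _ _ (Finset.mem_univ i),
        ← Finset.add_sum_erase _ _ (Finset.mem_erase.mpr ⟨hne.symm, Finset.mem_univ j⟩),
        Finset.sum_eq_zero, add_zero]
      · have h1 : Function.update v j (L (v j)) =
            Function.update v i (L (v i)) ∘ Equiv.swap i j := by
          funext t
          rw [Function.comp_apply]
          by_cases ht : t = i
          · subst ht
            rw [Equiv.swap_apply_left, Function.update_of_ne hne, Function.update_of_ne hne.symm,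
              hij]
          · by_cases ht' : t = j
            · subst ht'
              rw [Equiv.swap_apply_right, Function.update_self, Function.update_self, hij]
            · rw [Equiv.swap_apply_of_ne_of_ne ht ht', Function.update_of_ne ht,
                Function.update_of_ne ht']
        have h2 := w.map_swap (Function.update v i (L (v i))) hne
        rw [← h1] at h2
        change w (Function.update v i (L (v i))) + w (Function.update v j (L (v j))) = 0
        rw [h2, add_neg_cancel]
      · intro t ht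
        rw [Finset.mem_erase, Finset.mem_erase] at ht
        refine w.map_eq_zero_of_eq _ ?_ hne
        rw [Function.update_of_ne (Ne.symm ht.2.1), Function.update_of_ne (Ne.symm ht.1), hij] }

lemma actAlt_apply (L : Module.End ℂ V) (w : V [⋀^ι]→ₗ[ℂ] ℂ) (v : ι → V) :
    actAlt L w v = ∑ r, w (Function.update v r (L (v r))) :=
  actForm_apply L (w : MultilinearMap ℂ (fun _ : ι => V) ℂ) v

lemma actAlt_coe (L : Module.End ℂ V) (w : V [⋀^ι]→ₗ[ℂ] ℂ) (v : ι → V) :
    actAlt L w v = actForm L (w : MultilinearMap ℂ (fun _ : ι => V) ℂ) v := rfl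

variable {J : Module.End ℂ V} {z : ℂ} (hz : z ≠ 0) (hJJ : ∀ u, J (J u) = z ^ 2 • u)

/-- the action of an operator which commutes with `J` preserves balanced forms -/
lemma actAlt_bal (N : Module.End ℂ V) (hN : ∀ u, N (J u) = J (N u)) (w : V [⋀^ι]→ₗ[ℂ] ℂ)
    (hbal : ∀ v r s, w (Function.update v r (J (v r))) = w (Function.update v s (J (v s))))
    (v : ι → V) (r s : ι) :
    actAlt N w (Function.update v r (J (v r))) = actAlt N w (Function.update v s (J (v s))) := by
  have key : ∀ r, actAlt N w (Function.update v r (J (v r))) =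
      ∑ t, w (Function.update (Function.update v t (N (v t))) s
        (J (Function.update v t (N (v t)) s))) := by
    intro r
    rw [actAlt_apply]
    refine Finset.sum_congr rfl fun t _ => ?_
    rw [← hbal (Function.update v t (N (v t))) r s]
    by_cases h : t = r
    · subst h
      rw [Function.update_self, Function.update_idem, Function.update_self, Function.update_idem,
        hN]
    · rw [Function.update_of_ne h, Function.update_of_ne (Ne.symm h), Function.update_comm h]
  rw [key, key]

include hz hJJ in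
lemma prJ_idem (u : V) : prJ J z (prJ J z u) = prJ J z u := prJ_of_eigen hz (J_prJ hz hJJ u)

include hz hJJ in
lemma mem_range_prJ (u : V) : u ∈ LinearMap.range (prJ J z) ↔ J u = z • u := by
  constructor
  · rintro ⟨v, rfl⟩
    exact J_prJ hz hJJ v
  · intro h
    exact ⟨u, prJ_of_eigen hz h⟩

include hz hJJ in
lemma trace_prJ [FiniteDimensional ℂ V] : LinearMap.trace ℂ V (prJ J z) =
    (finrank ℂ (LinearMap.range (prJ J z)) : ℂ) := by
  have h : LinearMap.IsProj (LinearMap.range (prJ J z)) (prJ J z) :=
    ⟨fun x => ⟨x, rfl⟩, fun x hx => prJ_of_eigen hz ((mem_range_prJ hz hJJ x).mp hx)⟩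
  exact h.trace

lemma prJ_comm (N : Module.End ℂ V) (hN : ∀ u, N (J u) = J (N u)) (u : V) :
    N (prJ J z u) = prJ J z (N u) := by
  rw [prJ_apply, prJ_apply, map_smul, map_add, map_smul, hN]

include hz hJJ in
/-- a basis of an eigenspace, and the trace on it -/
lemma exists_eigenbasis [FiniteDimensional ℂ V] {m : ℕ}
    (hm : finrank ℂ (LinearMap.range (prJ J z)) = m) :
    ∃ E : Fin m → V, LinearIndependent ℂ E ∧ (∀ i, J (E i) = z • E i) ∧
      (∀ u, J u = z • u → u ∈ Submodule.span ℂ (Set.range E)) ∧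
      ∀ N : Module.End ℂ V, (∀ u, N (J u) = J (N u)) →
        ∃ c : Fin m → Fin m → ℂ, (∀ t, N (E t) = ∑ s, c s t • E s) ∧
          ∑ t, c t t = LinearMap.trace ℂ V (N * prJ J z) := by
  classical
  let S := LinearMap.range (prJ J z)
  let b : Basis (Fin m) ℂ S := (Module.finBasis ℂ S).reindex (finCongr hm)
  refine ⟨fun i => (b i : V), ?_, fun i => (mem_range_prJ hz hJJ _).mp (b i).2, ?_, ?_⟩
  · exact b.linearIndependent.map' S.subtype S.ker_subtype
  · intro u hu
    have h1 : u ∈ S := (mem_range_prJ hz hJJ u).mpr hu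
    have h2 := b.sum_repr ⟨u, h1⟩
    have h3 := congrArg S.subtype h2
    rw [map_sum] at h3
    have h4 : S.subtype ⟨u, h1⟩ = u := rfl
    rw [h4] at h3
    rw [← h3]
    refine Submodule.sum_mem _ fun i _ => ?_
    rw [map_smul]
    exact Submodule.smul_mem _ _ (Submodule.subset_span ⟨i, rfl⟩)
  · intro N hN
    let π : V →ₗ[ℂ] S := (prJ J z).rangeRestrict
    let Nz : Module.End ℂ S := (π ∘ₗ N) ∘ₗ S.subtype
    have hπ : ∀ u : V, ((π u : S) : V) = prJ J z u := fun u => rfl
    have hNz : ∀ x : S, ((Nz x : S) : V) = N x := by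
      intro x
      show ((π (N x) : S) : V) = N x
      rw [hπ]
      refine prJ_of_eigen hz ?_
      rw [← hN, (mem_range_prJ hz hJJ _).mp x.2, map_smul]
    refine ⟨fun s t => b.repr (Nz (b t)) s, fun t => ?_, ?_⟩
    · have h2 := b.sum_repr (Nz (b t))
      have h3 := congrArg S.subtype h2
      rw [map_sum] at h3
      have h4 : S.subtype (Nz (b t)) = N (b t) := hNz (b t)
      rw [h4] at h3
      exact h3.symm
    · have h5 : LinearMap.trace ℂ S Nz = ∑ t, b.repr (Nz (b t)) t := by
        rw [LinearMap.trace_eq_matrix_trace ℂ b, Matrix.trace]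
        refine Finset.sum_congr rfl fun t _ => ?_
        rw [Matrix.diag_apply, LinearMap.toMatrix_apply]
      rw [← h5]
      have h6 : LinearMap.trace ℂ S Nz = LinearMap.trace ℂ V (S.subtype ∘ₗ (π ∘ₗ N)) :=
        LinearMap.trace_comp_comm' _ _
      rw [h6]
      congr 1
      apply LinearMap.ext
      intro u
      show prJ J z (N u) = N (prJ J z u)
      rw [prJ_comm N hN]

end lin

section skew

variable {V : Type} [AddCommGroup V] [Module ℂ V] [FiniteDimensional ℂ V]
  (ψ : V →ₗ[ℂ] V →ₗ[ℂ] ℂ) (nd : ∀ x, (∀ y, ψ x y = 0) → x = 0)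
  {J : Module.End ℂ V} {z : ℂ} (hz : z ≠ 0) (hJJ : ∀ u, J (J u) = z ^ 2 • u)
  (hsk : ∀ u v, ψ (J u) v = - ψ u (J v)) {N : Module.End ℂ V} (hN : ∀ u, N (J u) = J (N u))
  {c : ℂ} (hc : ∀ u v, ψ (N u) v + ψ u (N v) = c * ψ u v)

omit [FiniteDimensional ℂ V] in
include hsk in
lemma psi_prJ (u v : V) : ψ (prJ J z u) v = ψ u (prJ J (-z) v) := by
  rw [prJ_apply, prJ_apply, map_smul, map_add, map_smul, LinearMap.smul_apply,
    LinearMap.add_apply, LinearMap.smul_apply, hsk, map_smul, map_add, map_smul, inv_neg]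
  simp only [smul_eq_mul]
  ring

include nd hsk hc in
lemma trace_swap : LinearMap.trace ℂ V (N * prJ J z) =
    c * LinearMap.trace ℂ V (prJ J (-z)) - LinearMap.trace ℂ V (N * prJ J (-z)) := by
  have h1 := trace_adjoint ψ nd (N * prJ J z) (prJ J (-z) * (c • 1 - N)) (fun x y => by
    rw [Module.End.mul_apply, Module.End.mul_apply, ← psi_prJ ψ hsk, LinearMap.sub_apply,
      LinearMap.smul_apply, map_sub, map_smul, Module.End.one_apply, smul_eq_mul]
    linear_combination hc (prJ J z x) y)
  rw [h1, mul_sub, map_sub, mul_smul_comm, mul_one, map_smul, smul_eq_mul]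
  congr 1
  exact LinearMap.trace_mul_comm ℂ _ _

include nd hz hsk in
lemma trace_prJ_eq : LinearMap.trace ℂ V (prJ J z) = (finrank ℂ V : ℂ) / 2 := by
  have h1 := trace_swap ψ nd (z := z) hsk (N := 1) (c := 2) (fun u v => by
    rw [Module.End.one_apply, Module.End.one_apply]; ring)
  rw [one_mul, one_mul] at h1
  have h2 : prJ J z + prJ J (-z) = 1 := by
    apply LinearMap.ext
    intro u
    rw [LinearMap.add_apply, prJ_add hz, Module.End.one_apply]
  have h3 := congrArg (LinearMap.trace ℂ V) h2
  rw [map_add, LinearMap.trace_one] at h3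
  linear_combination (1 / 2 : ℂ) * h1 + (1 / 2 : ℂ) * h3

include nd hz hsk hc in
lemma trace_sum_eq : LinearMap.trace ℂ V (N * prJ J z) + LinearMap.trace ℂ V (N * prJ J (-z)) =
    c * ((finrank ℂ V : ℂ) / 2) := by
  rw [trace_swap ψ nd (z := z) hsk hc, ← trace_prJ_eq ψ nd (neg_ne_zero.mpr hz) hsk]
  ring

omit [FiniteDimensional ℂ V] in
include hz hJJ in
lemma trace_NJ : LinearMap.trace ℂ V (N * J) =
    z * (LinearMap.trace ℂ V (N * prJ J z) - LinearMap.trace ℂ V (N * prJ J (-z))) := by
  have h1 : N * J = z • (N * prJ J z) - z • (N * prJ J (-z)) := by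
    apply LinearMap.ext
    intro u
    have hz' : -z ≠ 0 := neg_ne_zero.mpr hz
    have hJJ' : ∀ u, J (J u) = (-z) ^ 2 • u := fun u => by rw [hJJ, neg_sq]
    have h2 : J u = z • prJ J z u - z • prJ J (-z) u := by
      conv_lhs => rw [← prJ_add hz u, map_add, J_prJ hz hJJ, J_prJ hz' hJJ']
      module
    rw [Module.End.mul_apply, h2, LinearMap.sub_apply, LinearMap.smul_apply,
      LinearMap.smul_apply, Module.End.mul_apply, Module.End.mul_apply, map_sub, map_smul,
      map_smul]
  rw [h1, map_sub, map_smul, map_smul, smul_eq_mul, smul_eq_mul]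
  ring

end skew

end Pool.Agent.Helper7.AFT
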