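import Mathlib.LinearAlgebra.Matrix.Determinant.Basic
import Mathlib.Analysis.Complex.Basic
import Mathlib.LinearAlgebra.Alternating.Basic
import Mathlib.LinearAlgebra.Basis.VectorSpace

/-!
Minors: linearly independent vectors have a non-zero minor in every basis.
-/

namespace Pool.Agent.Helper7.AFT

open Module

section minor

variable {V : Type} [AddCommGroup V] [Module ℂ V] {κ : Type} [Fintype κ] (b : Basis κ ℂ V) {m : ℕ}

/-- the determinant of some coordinates -/
noncomputable def detS (s : Fin m → κ) : V [⋀^Fin m]→ₗ[ℂ] ℂ :=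
  (Matrix.detRowAlternating (R := ℂ) (n := Fin m)).compLinearMap
    (LinearMap.pi fun j => b.coord (s j))

omit [Fintype κ] in
lemma detS_apply (s : Fin m → κ) (v : Fin m → V) :
    detS b s v = Matrix.det (Matrix.of fun i j => b.repr (v i) (s j)) := rfl

lemma exists_minor (E : Fin m → V) (hE : LinearIndependent ℂ E) : ∃ s, detS b s E ≠ 0 := by
  classical
  by_contra hcon
  push Not at hcon
  have hinj : LinearMap.ker (Fintype.linearCombination ℂ E) = ⊥ :=
    LinearMap.ker_eq_bot'.2 fun c hc => by
      rw [Fintype.linearCombination_apply] at hc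
      exact funext (Fintype.linearIndependent_iff.1 hE c hc)
  obtain ⟨g, hg⟩ := (Fintype.linearCombination ℂ E).exists_leftInverse_of_injective hinj
  have hgE : ∀ i, g (E i) = Pi.single i 1 := by
    intro i
    have h1 := congrArg (fun l => l (Pi.single i 1)) hg
    simpa using h1
  have h1 : Matrix.det (Matrix.of fun i j => g (E i) j) = 1 := by
    have h2 : (Matrix.of fun i j => g (E i) j) = (1 : Matrix (Fin m) (Fin m) ℂ) := by
      ext i j
      rw [Matrix.of_apply, hgE i, Matrix.one_apply, Pi.single_apply]
      simp [eq_comm]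
    rw [h2, Matrix.det_one]
  have h2 : Matrix.det (Matrix.of fun i j => g (E i) j) =
      Matrix.detRowAlternating (R := ℂ) (n := Fin m)
        (fun j => ∑ k, g (b k) j • fun i => b.repr (E i) k) := by
    rw [← Matrix.det_transpose]
    show Matrix.det _ = Matrix.det _
    congr 1
    ext j i
    rw [Matrix.transpose_apply, Matrix.of_apply]
    have h3 : E i = ∑ k, b.repr (E i) k • b k := (b.sum_repr (E i)).symm
    conv_lhs => rw [h3, map_sum, Finset.sum_apply]
    rw [Finset.sum_apply]
    refine Finset.sum_congr rfl fun k _ => ?_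
    rw [map_smul, Pi.smul_apply, Pi.smul_apply, smul_eq_mul, smul_eq_mul, mul_comm]
  have h3 : Matrix.detRowAlternating (R := ℂ) (n := Fin m)
        (fun j => ∑ k, g (b k) j • fun i => b.repr (E i) k) =
      ∑ s : Fin m → κ, Matrix.detRowAlternating (R := ℂ) (n := Fin m)
        (fun j => g (b (s j)) j • fun i => b.repr (E i) (s j)) :=
    (Matrix.detRowAlternating (R := ℂ) (n := Fin m)).toMultilinearMap.map_sum
      (fun j k => g (b k) j • fun i => b.repr (E i) k)
  rw [h2, h3, Finset.sum_eq_zero] at h1
  · exact zero_ne_one h1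
  · intro s _
    have h4 : Matrix.detRowAlternating (R := ℂ) (n := Fin m)
        (fun j => g (b (s j)) j • fun i => b.repr (E i) (s j)) =
        (∏ j, g (b (s j)) j) • Matrix.detRowAlternating (R := ℂ) (n := Fin m)
          (fun j i => b.repr (E i) (s j)) :=
      (Matrix.detRowAlternating (R := ℂ) (n := Fin m)).toMultilinearMap.map_smul_univ
        (fun j => g (b (s j)) j) (fun j i => b.repr (E i) (s j))
    rw [h4]
    have h5 : Matrix.detRowAlternating (R := ℂ) (n := Fin m) (fun j i => b.repr (E i) (s j)) =
        detS b s E := by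
      rw [detS_apply, ← Matrix.det_transpose]
      rfl
    rw [h5, hcon, smul_zero]

omit [Fintype κ] in
/-- a determinant of rational numbers -/
lemma detS_rat (s : Fin m → κ) (v : Fin m → V)
    (h : ∀ i j, ∃ q : ℚ, b.repr (v i) (s j) = q) : ∃ q : ℚ, detS b s v = q := by
  choose q hq using h
  refine ⟨Matrix.det (Matrix.of q), ?_⟩
  rw [detS_apply]
  have h1 : (Matrix.of fun i j => b.repr (v i) (s j)) = (Matrix.of q).map (Rat.castHom ℂ) := by
    ext i j
    rw [Matrix.of_apply, hq, Matrix.map_apply, Matrix.of_apply]
    rfl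
  rw [h1]
  exact ((Rat.castHom ℂ).map_det (Matrix.of q)).symm

end minor

end Pool.Agent.Helper7.AFT
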