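import Pool.Agent.Helper7.AFT.Bal
import Pool.Agent.Helper7.AFT.TrA
import Pool.Agent.Helper7.AFT.TrB

/-!
The trace criterion: a Weil structure on an abelian fourfold has a nonzero Weil class which is a
Grothendieck class if and only if all operators `N_D J` have trace zero.
-/

namespace Pool.Agent.Helper7.AFT

open Module Pool.Agent.GPC Pool.Agent.Helper7 Pool.Agent.Helper39.AF

variable {X : AbVar} {d : ℚ} {J : X.H1 → X.H1}

/-- the comparison operator and the polarisation -/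
lemma N_pol (X : AbVar) (D : Derivation ℚ ℂ ℂ) (u v : X.H1) :
    (pData X).ψ ((pData X).N D u) v + (pData X).ψ u ((pData X).N D v) =
      (D (2 * Real.pi * Complex.I) / (2 * Real.pi * Complex.I)) * (pData X).ψ u v :=
  (isInv_N (I := Unit) (fun _ => 1) (fun _ => pData X) (k := 0) 0 Complex.two_pi_I_ne_zero
    (fun _ _ => ⟨0, by simp⟩) (fun _ _ => isAlgebraic_zero) D).pol () u v

/-- the data of a Weil structure as linear maps -/
structure WData (X : AbVar) (d : ℚ) (Jl : Module.End ℂ X.H1) (z : ℂ) : Prop where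
  hd : d ≠ 0
  hz0 : z ≠ 0
  hz : z ^ 2 = -(d : ℂ)
  endo : X.IsEnd Jl
  sq : ∀ v, Jl (Jl v) = (-(d : ℂ)) • v
  sq' : ∀ v, Jl (Jl v) = z ^ 2 • v
  skew : ∀ u v, (pData X).ψ (Jl u) v = - (pData X).ψ u (Jl v)
  comm : ∀ (D : Derivation ℚ ℂ ℂ) u, (pData X).N D (Jl u) = Jl ((pData X).N D u)

lemma wData (hJ : X.IsWeilStructure d J) (Jl : Module.End ℂ X.H1) (hJl : ∀ v, Jl v = J v) {z : ℂ}
    (hz : z ^ 2 = -(d : ℂ)) : WData X d Jl z := by
  have hJl' : (Jl : X.H1 → X.H1) = J := funext hJl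
  have hW := hJ
  obtain ⟨hd, hJE, hJ2, -, -⟩ := hJ
  have hE : X.IsEnd Jl := by rw [hJl']; exact hJE
  refine ⟨hd.ne', z_ne hd hz, hz, hE, fun v => ?_, fun v => ?_, fun u v => ?_, fun D u => ?_⟩
  · rw [hJl, hJl, hJ2]
  · rw [hJl, hJl, hJ2, hz]
  · rw [pData_ψ, hJl, weil_skew hW, hJl, ← pData_ψ, map_neg]
  · exact (isDRB_of_isEnd X Jl hE).comm_N D u

lemma WData.neg {Jl : Module.End ℂ X.H1} {z : ℂ} (h : WData X d Jl z) : WData X d Jl (-z) :=
  ⟨h.hd, neg_ne_zero.mpr h.hz0, by rw [neg_sq, h.hz], h.endo, h.sq,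
    fun v => by rw [h.sq', neg_sq], h.skew, h.comm⟩

lemma finrank_H1 (X : AbVar) : finrank ℂ X.H1 = 2 * X.g := by
  show finrank ℂ (Fin X.g ⊕ Fin X.g → ℂ) = _
  rw [finrank_fintype_fun_eq_card, Fintype.card_sum, Fintype.card_fin]
  ring

lemma half_finrank (hX : X.g = 4) : (finrank ℂ X.H1 : ℂ) / 2 = 4 := by
  have h1 : finrank ℂ X.H1 = 8 := (finrank_H1 X).trans (by rw [hX])
  rw [h1]
  norm_num

lemma WData.finrank (hX : X.g = 4) {Jl : Module.End ℂ X.H1} {z : ℂ} (h : WData X d Jl z) :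
    finrank ℂ (LinearMap.range (prJ Jl z)) = 2 * 2 := by
  have h1 := trace_prJ_eq (pData X).ψ (pData X).hψnd h.hz0 h.skew
  rw [trace_prJ h.hz0 h.sq', half_finrank hX] at h1
  have h2 : ((Module.finrank ℂ (LinearMap.range (prJ Jl z)) : ℕ) : ℂ) = ((4 : ℕ) : ℂ) := by
    rw [h1]; norm_num
  exact Nat.cast_injective h2

lemma WData.trace_sum (hX : X.g = 4) {Jl : Module.End ℂ X.H1} {z : ℂ} (h : WData X d Jl z)
    (D : Derivation ℚ ℂ ℂ) :
    LinearMap.trace ℂ X.H1 ((pData X).N D * prJ Jl z) +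
      LinearMap.trace ℂ X.H1 ((pData X).N D * prJ Jl (-z)) =
    4 * (D (2 * Real.pi * Complex.I) / (2 * Real.pi * Complex.I)) := by
  rw [trace_sum_eq (pData X).ψ (pData X).hψnd h.hz0 h.skew (N_pol X D), half_finrank hX]
  ring

/-- the action on the value of a form at vectors of an eigenspace is the trace -/
lemma WData.act_eq (hX : X.g = 4) {Jl : Module.End ℂ X.H1} {z : ℂ} (h : WData X d Jl z)
    (D : Derivation ℚ ℂ ℂ) (w : X.Class (2 * 2)) (v : Fin (2 * 2) → X.H1)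
    (hv : ∀ r, Jl (v r) = z • v r) : actAlt ((pData X).N D) w v =
      LinearMap.trace ℂ X.H1 ((pData X).N D * prJ Jl z) * w v := by
  obtain ⟨E, -, -, hsp, hN⟩ := exists_eigenbasis h.hz0 h.sq' (h.finrank hX)
  obtain ⟨c, hc, hc'⟩ := hN ((pData X).N D) (h.comm D)
  have h1 := act_trace w E ((pData X).N D) c hc
  rw [hc', ← actAlt_coe] at h1
  have h2 : (actAlt ((pData X).N D) w -
      LinearMap.trace ℂ X.H1 ((pData X).N D * prJ Jl z) • w) E = 0 := by
    rw [AlternatingMap.sub_apply, AlternatingMap.smul_apply, smul_eq_mul, h1, sub_self]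
  have h3 := alt_span_zero _ E h2 v fun r => hsp _ (hv r)
  rw [AlternatingMap.sub_apply, AlternatingMap.smul_apply, smul_eq_mul] at h3
  exact sub_eq_zero.mp h3

/-- the action on a balanced form -/
lemma WData.act_bal (hX : X.g = 4) {Jl : Module.End ℂ X.H1} {z : ℂ} (h : WData X d Jl z)
    (D : Derivation ℚ ℂ ℂ) (w : X.Class (2 * 2))
    (hw : ∀ v r s, w (Function.update v r (Jl (v r))) = w (Function.update v s (Jl (v s))))
    (v : Fin (2 * 2) → X.H1) : actAlt ((pData X).N D) w v =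
      LinearMap.trace ℂ X.H1 ((pData X).N D * prJ Jl z) * w (fun r => prJ Jl z (v r)) +
      LinearMap.trace ℂ X.H1 ((pData X).N D * prJ Jl (-z)) * w (fun r => prJ Jl (-z) (v r)) := by
  rw [bal_split h.hz0 h.sq' _ (actAlt_bal _ (h.comm D) w hw) v,
    h.act_eq hX D w _ (fun r => J_prJ h.hz0 h.sq' _),
    h.neg.act_eq hX D w _ (fun r => J_prJ h.neg.hz0 h.neg.sq' _)]

/-- rational Weil forms exist -/
lemma WData.exists_form (hX : X.g = 4) {Jl : Module.End ℂ X.H1} {z : ℂ} (h : WData X d Jl z) :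
    ∃ w : X.Class (2 * 2), w ≠ 0 ∧ X.IsRational 2 w ∧
      ∀ v r s, w (Function.update v r (Jl (v r))) = w (Function.update v s (Jl (v s))) := by
  obtain ⟨E, hE, hEJ, -, -⟩ := exists_eigenbasis h.hz0 h.sq' (h.finrank hX)
  obtain ⟨s, hs⟩ := exists_minor (pData X).bB E hE
  obtain ⟨α, hα⟩ : ∃ α : X.Class (2 * 2), α =
      ((2 * Real.pi * Complex.I : ℂ) ^ 2) • detS (pData X).bB s := ⟨_, rfl⟩
  have hd' : (d : ℂ) ≠ 0 := Rat.cast_ne_zero.mpr h.hd
  have hαr : X.IsRational 2 α := by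
    intro v hv
    obtain ⟨q, hq⟩ := detS_rat (pData X).bB s v fun i j =>
      (pData X).repr_rat _ ((mem_pData_Q X _).mpr (hv i)) _
    exact ⟨q, by rw [hα, AlternatingMap.smul_apply, smul_eq_mul, hq]⟩
  refine ⟨wproj d Jl α, ?_, ?_, fun v r s => wproj_weil h.hd h.sq α v r s⟩
  · intro h0
    have h1 : wproj d Jl α E = 0 := by rw [h0]; rfl
    rw [eq_four, wproj_four, PF_expand (four_lin α)] at h1
    simp only [hEJ, (four_lin α).smul1, (four_lin α).smul2, (four_lin α).smul3,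
      (four_lin α).smul4] at h1
    have h2 : z * z = -(d : ℂ) := by rw [← h.hz]; ring
    have h3 : (1 / 8 : ℂ) * (four α (E 0) (E 1) (E 2) (E 3) +
        (1 / (d : ℂ) ^ 2) * (z * (z * (z * (z * four α (E 0) (E 1) (E 2) (E 3))))) -
        (1 / (d : ℂ)) * (z * (z * four α (E 0) (E 1) (E 2) (E 3)) +
          z * (z * four α (E 0) (E 1) (E 2) (E 3)) + z * (z * four α (E 0) (E 1) (E 2) (E 3)) +
          z * (z * four α (E 0) (E 1) (E 2) (E 3)) + z * (z * four α (E 0) (E 1) (E 2) (E 3)) +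
          z * (z * four α (E 0) (E 1) (E 2) (E 3)))) = four α (E 0) (E 1) (E 2) (E 3) := by
      have h4 : ∀ x : ℂ, z * (z * x) = -(d : ℂ) * x := by
        intro x; rw [← mul_assoc, h2]
      simp only [h4]
      field_simp
      ring
    rw [h3, ← eq_four, hα, AlternatingMap.smul_apply, smul_eq_mul] at h1
    rcases mul_eq_zero.mp h1 with h5 | h5
    · exact Complex.two_pi_I_ne_zero (pow_eq_zero_iff (by norm_num) |>.mp h5)
    · exact hs h5
  · intro v hv
    have hf : ∀ a b c e : X.H1, X.IsBetti a → X.IsBetti b → X.IsBetti c → X.IsBetti e →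
        ∃ q : ℚ, four α a b c e = (2 * Real.pi * Complex.I) ^ 2 * q := by
      intro a b c e ha hb hc he
      apply hαr
      intro r
      fin_cases r
      · exact ha
      · exact hb
      · exact hc
      · exact he
    have hB := h.endo.betti
    rw [eq_four, wproj_four, PF_expand (four_lin α)]
    obtain ⟨q0, h0⟩ := hf _ _ _ _ (hv 0) (hv 1) (hv 2) (hv 3)
    obtain ⟨q1, h1⟩ := hf _ _ _ _ (hB _ (hv 0)) (hB _ (hv 1)) (hB _ (hv 2)) (hB _ (hv 3))
    obtain ⟨q2, h2⟩ := hf _ _ _ _ (hB _ (hv 0)) (hB _ (hv 1)) (hv 2) (hv 3)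
    obtain ⟨q3, h3⟩ := hf _ _ _ _ (hB _ (hv 0)) (hv 1) (hB _ (hv 2)) (hv 3)
    obtain ⟨q4, h4⟩ := hf _ _ _ _ (hB _ (hv 0)) (hv 1) (hv 2) (hB _ (hv 3))
    obtain ⟨q5, h5⟩ := hf _ _ _ _ (hv 0) (hB _ (hv 1)) (hB _ (hv 2)) (hv 3)
    obtain ⟨q6, h6⟩ := hf _ _ _ _ (hv 0) (hB _ (hv 1)) (hv 2) (hB _ (hv 3))
    obtain ⟨q7, h7⟩ := hf _ _ _ _ (hv 0) (hv 1) (hB _ (hv 2)) (hB _ (hv 3))
    rw [h0, h1, h2, h3, h4, h5, h6, h7]
    refine ⟨(1 / 8) * (q0 + (1 / d ^ 2) * q1 - (1 / d) * (q2 + q3 + q4 + q5 + q6 + q7)), ?_⟩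
    push_cast
    ring

/-- a rational form is algebraic if all comparison operators act by the right multiplier -/
lemma alg_of_act (w : X.Class (2 * 2)) (hr : X.IsRational 2 w)
    (h : ∀ (D : Derivation ℚ ℂ ℂ) v, actAlt ((pData X).N D) w v =
      2 * (D (2 * Real.pi * Complex.I) / (2 * Real.pi * Complex.I)) * w v) :
    X.IsGrothendieckClass 2 w := by
  refine ⟨fun v hv => isAlgebraic_of_derivation _ fun D => ?_, hr⟩
  have h1 := derivForm_of_rat (pData X).bB D (2 * Real.pi * Complex.I)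
    Complex.two_pi_I_ne_zero 2 (w : MultilinearMap ℂ (fun _ : Fin (2 * 2) => X.H1) ℂ)
    (fun s => hr _ fun r => (mem_pData_Q X _).mp ((pData X).basis_mem _)) v
  have h2 : ∀ r, nabla (pData X).bB D (v r) = -((pData X).N D (v r)) := by
    intro r
    have h3 : (pData X).N D (v r) = nabla (Pi.basisFun ℂ (Fin X.g ⊕ Fin X.g)) D (v r) -
        nabla (pData X).bB D (v r) := rfl
    rw [h3, nabla_eq_zero (Pi.basisFun ℂ (Fin X.g ⊕ Fin X.g)) D (v r)
      (fun k => by rw [Pi.basisFun_repr]; exact hv r k), zero_sub, neg_neg]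
  have h4 : ∑ r, (w : MultilinearMap ℂ (fun _ : Fin (2 * 2) => X.H1) ℂ)
      (Function.update v r (nabla (pData X).bB D (v r))) = -(actAlt ((pData X).N D) w v) := by
    rw [actAlt_apply, ← Finset.sum_neg_distrib]
    refine Finset.sum_congr rfl fun r _ => ?_
    rw [h2, AlternatingMap.coe_multilinearMap, AlternatingMap.map_update_neg]
  rw [h4, h D v] at h1
  have h5 : D (w v) = -(2 * (D (2 * Real.pi * Complex.I) / (2 * Real.pi * Complex.I)) * w v) +
    (2 : ℕ) * (D (2 * Real.pi * Complex.I) / (2 * Real.pi * Complex.I)) * w v := h1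
  rw [h5]
  push_cast
  ring

/-- **Existence of a Weil class which is a Grothendieck class.** -/
theorem weil_of_trace (hX : X.g = 4) (hJ : X.IsWeilStructure d J) (Jl : Module.End ℂ X.H1)
    (hJl : ∀ v, Jl v = J v)
    (h : ∀ D : Derivation ℚ ℂ ℂ, LinearMap.trace ℂ X.H1 ((pData X).N D * Jl) = 0) :
    ∃ w : X.Class (2 * 2), w ≠ 0 ∧ X.IsWeil 2 w ∧ X.IsGrothendieckClass 2 w := by
  obtain ⟨z, hz⟩ : ∃ z : ℂ, z ^ 2 = -(d : ℂ) := IsAlgClosed.exists_pow_nat_eq _ two_pos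
  have H := wData hJ Jl hJl hz
  obtain ⟨w, hw0, hwr, hwb⟩ := H.exists_form hX
  have hwb' : ∀ v r s, w (Function.update v r (J (v r))) = w (Function.update v s (J (v s))) := by
    intro v r s
    rw [← hJl, ← hJl]
    exact hwb v r s
  refine ⟨w, hw0, ⟨⟨rfl, hX⟩, hwr, d, J, hJ, hwb'⟩, alg_of_act w hwr fun D v => ?_⟩
  have h1 := H.trace_sum hX D
  have h2 := h D
  rw [trace_NJ H.hz0 H.sq'] at h2
  have h3 := sub_eq_zero.mp ((mul_eq_zero.mp h2).resolve_left H.hz0)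
  rw [H.act_bal hX D w hwb v, bal_split H.hz0 H.sq' w hwb v]
  rw [← h3] at h1 ⊢
  linear_combination (1 / 2 : ℂ) * (w (fun r => prJ Jl z (v r)) + w (fun r => prJ Jl (-z) (v r))) * h1

/-- **A nonzero Weil class which is a Grothendieck class kills the traces.** -/
theorem trace_of_weil (hX : X.g = 4) (hJ : X.IsWeilStructure d J) (Jl : Module.End ℂ X.H1)
    (hJl : ∀ v, Jl v = J v) (w : X.Class (2 * 2)) (hw0 : w ≠ 0)
    (hw : ∀ v r s, w (Function.update v r (J (v r))) = w (Function.update v s (J (v s))))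
    (hG : X.IsGrothendieckClass 2 w) (D : Derivation ℚ ℂ ℂ) :
    LinearMap.trace ℂ X.H1 ((pData X).N D * Jl) = 0 := by
  obtain ⟨z, hz⟩ : ∃ z : ℂ, z ^ 2 = -(d : ℂ) := IsAlgClosed.exists_pow_nat_eq _ two_pos
  have H := wData hJ Jl hJl hz
  have hwb : ∀ v r s, w (Function.update v r (Jl (v r))) =
      w (Function.update v s (Jl (v s))) := by
    intro v r s
    rw [hJl, hJl]
    exact hw v r s
  have h1 := H.trace_sum hX D
  have h2 : ∀ v, actAlt ((pData X).N D) w v =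
      2 * (D (2 * Real.pi * Complex.I) / (2 * Real.pi * Complex.I)) * w v := by
    intro v
    rw [actAlt_apply]
    have h3 := opN_invariant (pData X).bB (Pi.basisFun ℂ (Fin X.g ⊕ Fin X.g)) D
      (2 * Real.pi * Complex.I) Complex.two_pi_I_ne_zero 2
      (w : MultilinearMap ℂ (fun _ : Fin (2 * 2) => X.H1) ℂ)
      (fun s => hG.1 _ fun r => by
        rw [Pi.basisFun_apply]
        exact single_deRham X _)
      (fun s => hG.2 _ fun r => (mem_pData_Q X _).mp ((pData X).basis_mem _)) v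
    have h4 : ∑ r, w (Function.update v r ((pData X).N D (v r))) =
      (2 : ℕ) * (D (2 * Real.pi * Complex.I) / (2 * Real.pi * Complex.I)) * w v := h3
    rw [h4]
    push_cast
    ring
  obtain ⟨v0, hv0⟩ : ∃ v, w v ≠ 0 := by
    by_contra hcon
    push Not at hcon
    exact hw0 (AlternatingMap.ext hcon)
  rw [bal_split H.hz0 H.sq' w hwb v0] at hv0
  rw [trace_NJ H.hz0 H.sq']
  by_cases h3 : w (fun r => prJ Jl z (v0 r)) = 0
  · have h4 : w (fun r => prJ Jl (-z) (v0 r)) ≠ 0 := by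
      intro h5
      rw [h3, h5, add_zero] at hv0
      exact hv0 rfl
    have h5 := H.neg.act_eq hX D w _ (fun r => J_prJ H.neg.hz0 H.neg.sq' (v0 r))
    rw [h2] at h5
    have h6 := mul_right_cancel₀ h4 h5
    linear_combination z * h1 + 2 * z * h6
  · have h5 := H.act_eq hX D w _ (fun r => J_prJ H.hz0 H.sq' (v0 r))
    rw [h2] at h5
    have h6 := mul_right_cancel₀ h3 h5
    linear_combination -z * h1 - 2 * z * h6

end Pool.Agent.Helper7.AFT
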