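import Pool.Agent.Helper7.AFT.Final
import Pool.Agent.Helper7.AFT.TrW

/-!
Abelian varieties of dimension at most four, from the values of the traces of the operators `N_D J`.
-/

namespace Pool.Agent.Helper7.AFT

open Module NumberField Pool.Agent.GPC Pool.Agent.Helper7 Pool.Agent.Helper39.AF
open Pool.Agent.Helper39.AFD

/-- the traces vanish for a balanced Weil structure -/
def StBal : Prop := ∀ (X : AbVar) (d : ℚ) (Jl : Module.End ℂ X.H1), X.g = 4 →
  X.IsWeilStructure d Jl → X.IsBalanced d Jl →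
  ∀ D : Derivation ℚ ℂ ℂ, LinearMap.trace ℂ X.H1 ((pData X).N D * Jl) = 0

/-- the traces do not vanish for a Weil structure which is not balanced -/
def StUnb : Prop := ∀ (X : AbVar) (d : ℚ) (Jl : Module.End ℂ X.H1), X.g = 4 →
  X.IsWeilStructure d Jl → ¬ X.IsBalanced d Jl →
  ∃ D : Derivation ℚ ℂ ℂ, LinearMap.trace ℂ X.H1 ((pData X).N D * Jl) ≠ 0

/-- a rational number which is `z` times a rational number, `z` imaginary -/
lemma rat_eq_zero {d : ℚ} (hd : 0 < d) {z : ℂ} (hz : z ^ 2 = -(d : ℂ)) (p q : ℚ)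
    (h : (p : ℂ) = z * q) : q = 0 := by
  have h1 : ((p ^ 2 + d * q ^ 2 : ℚ) : ℂ) = 0 := by
    push_cast
    rw [h, mul_pow, hz]
    ring
  have h2 : p ^ 2 + d * q ^ 2 = 0 := by exact_mod_cast h1
  have h3 : 0 ≤ p ^ 2 := sq_nonneg p
  have h4 : 0 ≤ d * q ^ 2 := mul_nonneg hd.le (sq_nonneg q)
  have h5 : d * q ^ 2 = 0 := by linarith
  have h6 := (mul_eq_zero.mp h5).resolve_left hd.ne'
  exact pow_eq_zero_iff (by norm_num) |>.mp h6

/-- a Weil class in `F^2` is zero if an eigenspace in `F^0` has dimension three -/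
theorem weil_zero_of_inFil {X : AbVar} {d : ℚ} {J : X.H1 → X.H1} (hX : X.g = 4)
    (hJ : X.IsWeilStructure d J) (hb : ¬ X.IsBalanced d J) (w : X.Class (2 * 2))
    (hr : X.IsRational 2 w)
    (hw : ∀ v r s, w (Function.update v r (J (v r))) = w (Function.update v s (J (v s))))
    (hF : X.IsInFil 2 w) : w = 0 := by
  classical
  obtain ⟨z, hz, h1⟩ := exists_line hX hJ hb
  have hd := hJ.1
  have hJE := hJ.2.1
  have hl := hJE.linear
  have hz0 := z_ne hd hz
  have h3 : finrank ℂ (X.filEigen J (-z)) = 3 := by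
    have h := (finrank_add hJE hJ.2.2.1 hz0 hz).trans hX
    omega
  have H := wData hJ (hl.mk' J) (fun _ => rfl) hz
  obtain ⟨E, hE, hEJ, hsp, -⟩ := exists_eigenbasis H.neg.hz0 H.neg.sq' (H.neg.finrank hX)
  -- `w` vanishes on the eigenspace for `-z`
  have hvan : ∀ v : Fin (2 * 2) → X.H1, (∀ r, J (v r) = (-z) • v r) → w v = 0 := by
    obtain ⟨c⟩ : Nonempty (Basis (Fin 3) ℂ (X.filEigen J (-z))) := by
      have : Module.Finite ℂ (X.filEigen J (-z)) := inferInstance
      exact ⟨(Module.finBasis ℂ (X.filEigen J (-z))).reindex (finCongr h3)⟩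
    have hcl : LinearIndependent ℂ (fun i => (c i : X.H1)) :=
      c.linearIndependent.map' (X.filEigen J (-z)).subtype (X.filEigen J (-z)).ker_subtype
    -- a vector of the eigenspace outside the span of these
    obtain ⟨u, hu, hu'⟩ : ∃ u, J u = (-z) • u ∧ u ∉ X.filEigen J (-z) := by
      by_contra hcon
      push Not at hcon
      have h5 : LinearIndependent ℂ (fun i => (⟨E i, hcon _ (hEJ i)⟩ : X.filEigen J (-z))) :=
        LinearIndependent.of_comp (X.filEigen J (-z)).subtype hE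
      have h6 := h5.fintype_card_le_finrank
      rw [h3, Fintype.card_fin] at h6
      omega
    obtain ⟨e, he⟩ : ∃ e : Fin (2 * 2) → X.H1, e = Fin.cons u (fun i : Fin 3 => (c i : X.H1)) :=
      ⟨_, rfl⟩
    have he0 : e 0 = u := by rw [he]; rfl
    have hes : ∀ i : Fin 3, e i.succ = c i := by intro i; rw [he]; rfl
    have heJ : ∀ i, J (e i) = (-z) • e i := by
      intro i
      refine Fin.cases ?_ (fun i => ?_) i
      · rw [he0, hu]
      · rw [hes]
        exact ((mem_filEigen hl _ _).mp (c i).2).1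
    have heli : LinearIndependent ℂ e := by
      rw [he]
      refine LinearIndependent.finCons hcl ?_
      intro hcon
      apply hu'
      refine Submodule.span_le.mpr ?_ hcon
      rintro _ ⟨i, rfl⟩
      exact (c i).2
    have hwe : w e = 0 := by
      refine hF e ⟨Finset.univ.erase 0, ?_, fun r hr => ?_⟩
      · rw [Finset.card_erase_of_mem (Finset.mem_univ _), Finset.card_univ, Fintype.card_fin]
        norm_num
      · obtain ⟨i, rfl⟩ := Fin.exists_succ_eq.mpr (Finset.ne_of_mem_erase hr)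
        rw [hes]
        exact ((mem_filEigen hl _ _).mp (c i).2).2
    intro v hv
    refine alt_span_zero w e hwe v fun r => ?_
    -- the span of `e` is the eigenspace
    have h5 : Submodule.span ℂ (Set.range e) = Submodule.span ℂ (Set.range E) := by
      apply Submodule.eq_of_le_of_finrank_eq
      · rw [Submodule.span_le]
        rintro _ ⟨i, rfl⟩
        exact hsp _ (heJ i)
      · rw [finrank_span_eq_card heli, finrank_span_eq_card hE]
    rw [h5]
    exact hsp _ (hv r)
  -- hence `w (J v_1, ..) = z w (v_1, ..)`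
  have hwl : ∀ v r s, w (Function.update v r ((hl.mk' J) (v r))) =
      w (Function.update v s ((hl.mk' J) (v s))) := hw
  have hneg : ∀ v : Fin (2 * 2) → X.H1, w (Function.update v 0 (J (v 0))) = z * w v := by
    intro v
    have h5 := bal_neg H.neg.hz0 H.neg.sq' w hwl hvan v 0
    rw [neg_neg] at h5
    exact h5
  have hB : ∀ v : Fin (2 * 2) → X.H1, (∀ r, X.IsBetti (v r)) → w v = 0 := by
    intro v hv
    obtain ⟨q, hq⟩ := hr v hv
    obtain ⟨p, hp⟩ := hr (Function.update v 0 (J (v 0))) (fun r => by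
      by_cases h : r = 0
      · subst h
        rw [Function.update_self]
        exact hJE.betti _ (hv 0)
      · rw [Function.update_of_ne h]
        exact hv r)
    have h5 := hneg v
    rw [hq, hp] at h5
    have h6 : ((2 * Real.pi * Complex.I : ℂ) ^ 2) ≠ 0 := pow_ne_zero _ Complex.two_pi_I_ne_zero
    have h7 : (p : ℂ) = z * q := by
      apply mul_left_cancel₀ h6
      rw [h5]
      ring
    rw [hq, rat_eq_zero hd hz p q h7]
    simp
  apply AlternatingMap.coe_multilinearMap_injective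
  refine Basis.ext_multilinear (fun _ => (pData X).bB) fun s => ?_
  exact hB _ fun r => (mem_pData_Q X _).mp ((pData X).basis_mem _)

variable (hBal : StBal) (hUnb : StUnb)

include hUnb in
/-- a Weil class of a Weil structure which is not balanced is no Grothendieck class -/
lemma weil_zero_of_gr {X : AbVar} {d : ℚ} {J : X.H1 → X.H1} (hX : X.g = 4)
    (hJ : X.IsWeilStructure d J) (hb : ¬ X.IsBalanced d J) (w : X.Class (2 * 2))
    (hw : ∀ v r s, w (Function.update v r (J (v r))) = w (Function.update v s (J (v s))))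
    (hG : X.IsGrothendieckClass 2 w) : w = 0 := by
  by_contra hw0
  obtain ⟨D, hD⟩ := hUnb X d (hJ.2.1.linear.mk' J) hX hJ hb
  exact hD (trace_of_weil hX hJ _ (fun _ => rfl) w hw0 hw hG D)

include hBal in
/-- the rational Weil classes of a balanced Weil structure are Grothendieck classes -/
lemma weil_gr_of_balanced {X : AbVar} {d : ℚ} {J : X.H1 → X.H1} (hX : X.g = 4)
    (hJ : X.IsWeilStructure d J) (hb : X.IsBalanced d J) (w : X.Class (2 * 2))
    (hr : X.IsRational 2 w)
    (hw : ∀ v r s, w (Function.update v r (J (v r))) = w (Function.update v s (J (v s)))) :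
    X.IsGrothendieckClass 2 w := by
  obtain ⟨z, hz⟩ : ∃ z : ℂ, z ^ 2 = -(d : ℂ) := IsAlgClosed.exists_pow_nat_eq _ two_pos
  have H := wData hJ (hJ.2.1.linear.mk' J) (fun _ => rfl) hz
  have hwl : ∀ v r s, w (Function.update v r ((hJ.2.1.linear.mk' J) (v r))) =
      w (Function.update v s ((hJ.2.1.linear.mk' J) (v s))) := hw
  refine alg_of_act w hr fun D v => ?_
  have h1 := H.trace_sum hX D
  have h2 := hBal X d (hJ.2.1.linear.mk' J) hX hJ hb D
  rw [trace_NJ H.hz0 H.sq'] at h2
  have h3 := sub_eq_zero.mp ((mul_eq_zero.mp h2).resolve_left H.hz0)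
  rw [H.act_bal hX D w hwl v, bal_split H.hz0 H.sq' w hwl v]
  rw [← h3] at h1 ⊢
  linear_combination (1 / 2 : ℂ) * (w (fun r => prJ (hJ.2.1.linear.mk' J) z (v r)) +
    w (fun r => prJ (hJ.2.1.linear.mk' J) (-z) (v r))) * h1

include hBal hUnb in
/-- a Weil class is a Grothendieck class if and only if it is a Hodge class -/
theorem weil_iff {X : AbVar} (w : X.Class (2 * 2)) (hw : X.IsWeil 2 w) :
    X.IsGrothendieckClass 2 w ↔ X.IsInFil 2 w := by
  obtain ⟨⟨-, h4⟩, hr, d, J, hJ, hwJ⟩ := hw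
  by_cases hJb : X.IsBalanced d J
  · exact ⟨fun _ => inFil_of_balanced hJ hJb w hwJ,
      fun _ => weil_gr_of_balanced hBal h4 hJ hJb w hr hwJ⟩
  · constructor
    · intro hG
      rw [weil_zero_of_gr hUnb h4 hJ hJb w hwJ hG]
      exact fun _ _ => rfl
    · intro hF
      rw [weil_zero_of_inFil h4 hJ hJb w hr hwJ hF]
      exact (Helper39.AF.GS X 2).zero_mem

include hBal hUnb in
/-- **The theorem for abelian varieties of dimension at most four** -/
theorem main_dwc (X : AbVar) (hX : X.g ≤ 4) :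
    (∀ (k : ℕ) (α : X.Class (2 * k)), X.IsGrothendieckClass k α ↔
      ∃ (m : ℕ) (w : Fin m → X.Class (2 * k)),
        (∀ r, X.IsWeil k (w r) ∧ X.IsInFil k (w r)) ∧
        X.IsDivisorialClass k (α - ∑ r, w r)) ∨
    (X.g = 4 ∧ ∃ (d : ℚ) (J : X.H1 → X.H1), X.IsWeilStructure d J ∧
      (∀ f, X.IsEnd f → ∃ a b : ℚ, ∀ v, f v = (a : ℂ) • v + (b : ℂ) • J v) ∧
      (∃ z : ℂ, z ^ 2 = -(d : ℂ) ∧ finrank ℂ (X.filEigen J z) = 1) ∧
      ∀ (Y E : AbVar) (JY : Y.H1 → Y.H1) (JE : E.H1 → E.H1)
        (T : X.H1 → X.H1 → Y.H1 → E.H1 → ℂ), ¬ X.IsExteriorSquare d J Y E JY JE T) := by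
  by_contra hcon0
  rw [not_or] at hcon0
  obtain ⟨hcon0, hno⟩ := hcon0
  have hw : ∀ w : X.Class (2 * 2), X.IsWeil 2 w → X.IsGrothendieckClass 2 w → X.IsInFil 2 w :=
    fun w h => (weil_iff hBal hUnb w h).mp
  -- the weaker form is enough
  have hcon : ¬ (∀ (k : ℕ) (α : X.Class (2 * k)), X.IsGrothendieckClass k α ↔
      ∃ (m : ℕ) (w : Fin m → X.Class (2 * k)),
        (∀ r, X.IsWeil k (w r) ∧ X.IsGrothendieckClass k (w r) ∧ X.IsInFil k (w r)) ∧
        X.IsDivisorialClass k (α - ∑ r, w r)) := by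
    intro h
    apply hcon0
    intro k α
    rw [h k α]
    constructor
    · rintro ⟨m, w, h1, h2⟩
      exact ⟨m, w, fun r => ⟨(h1 r).1, (h1 r).2.2⟩, h2⟩
    · rintro ⟨m, w, h1, h2⟩
      refine ⟨m, w, fun r => ⟨(h1 r).1, ?_, (h1 r).2⟩, h2⟩
      have h3 := (h1 r).1.1.1
      subst h3
      exact (weil_iff hBal hUnb _ (h1 r).1).mpr (h1 r).2
  have hb : X.g = 4 → ∀ d J, X.IsWeilStructure d J → X.IsBalanced d J →
      ∃ w : X.Class (2 * 2), w ≠ 0 ∧ X.IsWeil 2 w ∧ X.IsGrothendieckClass 2 w :=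
    fun h4 d J hJ hJb => weil_of_trace h4 hJ (hJ.2.1.linear.mk' J) (fun _ => rfl)
      (hBal X d (hJ.2.1.linear.mk' J) h4 hJ hJb)
  -- a Weil class is enough
  have hweil : (∃ w : X.Class (2 * 2), w ≠ 0 ∧ X.IsWeil 2 w ∧ X.IsGrothendieckClass 2 w) →
      False := by
    intro h
    exact hcon (refine_sum hw fun k α => intrinsic_iff (fun _ _ A n => all_four A n) X hX
      (fun _ _ => h) k α)
  rcases tri X hX with h | ⟨h4, d, hq⟩ | ⟨h4, d, J, hJ, hJb⟩
  · refine hcon (refine_sum hw fun k α => ⟨fun hα => split hα (h k α hα), ?_⟩)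
    rintro ⟨m, w, hw, hδ⟩
    have h1 : α = (α - ∑ r, w r) + ∑ r, w r := by abel
    rw [h1]
    exact (Helper39.AF.GS X k).add_mem (grothendieck_of_divisorial hδ)
      ((Helper39.AF.GS X k).sum_mem fun r _ => (hw r).2)
  · -- simple fourfolds with an imaginary quadratic field
    obtain ⟨hd, J, hJE, hJ2, hall⟩ := hq
    have HQ : X.IsQuadBy d J := ⟨hd, hJE, hJ2, hall⟩
    have hJ : X.IsWeilStructure d J := by
      refine ⟨hd, hJE, hJ2, ?_, fun s hs _ v => HQ.comm hJE hs v⟩
      exact notScalarProp X HQ.isSimple (by omega) d hd J hJE hJ2 (quad_skew HQ (by omega))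
    by_cases hJb : X.IsBalanced d J
    · exact hweil (hb h4 d J hJ hJb)
    · obtain ⟨z, hz, h1⟩ := exists_line h4 hJ hJb
      obtain ⟨Y, E, JY, JE, T0, hT0⟩ : ∃ (Y E : AbVar) (JY : Y.H1 → Y.H1) (JE : E.H1 → E.H1)
          (T : X.H1 → X.H1 → Y.H1 → E.H1 → ℂ), X.IsExteriorSquare d J Y E JY JE T := by
        by_contra h
        push Not at h
        exact hno ⟨h4, d, J, hJ, hall, ⟨z, hz, h1⟩, h⟩
      obtain ⟨T, hT⟩ := exists_linear hT0
      have hl := fil_of_square h4 hJ hT hz h1
      rcases intrinsic_dich (fun _ _ A n => all_four A n) (fun _ _ A n => three_one_dich A n)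
        (fun _ _ A n => four_dich A n) X hX with h | ⟨-, -, h⟩
      · exact hcon (refine_sum hw h)
      · apply hcon
        intro k α
        constructor
        · intro hα
          obtain ⟨d', J', hJ', hk⟩ := h k α hα
          -- `J'` is a multiple of `J`
          obtain ⟨a, b, hab⟩ := HQ.all J' hJ'.2.1
          have hkill := kill_of_kill HQ hJ.2.2.2.1 hJ'.1 (by omega) hJ'.2.2.1 hab α hk
          refine ⟨0, Fin.elim0, fun r => Fin.elim0 r, ?_⟩
          rw [Finset.univ_eq_empty, Finset.sum_empty, sub_zero]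
          exact simple_all h4 HQ hJ hz h1 hT hl k α hα hkill
        · rintro ⟨m, w, hw, hδ⟩
          have h1 : α = (α - ∑ r, w r) + ∑ r, w r := by abel
          rw [h1]
          exact (Helper39.AF.GS X k).add_mem (grothendieck_of_divisorial hδ)
            ((Helper39.AF.GS X k).sum_mem fun r _ => (hw r).2.1)
  · exact hweil (hb h4 d J hJ hJb)

end Pool.Agent.Helper7.AFT
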