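import Pool.Agent.Helper7.AFT.Final2
import Pool.Agent.DWC.Brg
import Pool.Agent.DWY.StC

/-!
# Abelian varieties of dimension at most four: the theorem without alternatives, from the
statements of the campaigns DWC and DWY
-/

set_option autoImplicit false

namespace Pool.Agent.Helper7.AFT

open Pool.Agent.GPC

/-- **The theorem for abelian varieties of dimension at most four**, without alternatives -/
theorem main_dwy (hBal : StBal) (hUnb : StUnb) (hEx : DWY.St_ExS) (X : AbVar) (hX : X.g ≤ 4)
    (k : ℕ) (α : X.Class (2 * k)) : X.IsGrothendieckClass k α ↔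
      ∃ (m : ℕ) (w : Fin m → X.Class (2 * k)),
        (∀ r, X.IsWeil k (w r) ∧ X.IsInFil k (w r)) ∧
        X.IsDivisorialClass k (α - ∑ r, w r) := by
  rcases main_dwc hBal hUnb X hX with h | ⟨h4, d, J, hJ, -, hz, hno⟩
  · exact h k α
  · exfalso
    have hK : DWC.IsKs X d (hJ.2.1.linear.mk' J) := DWC.isKs_of_weil (hJ.2.1.linear.mk' J) hJ
    obtain ⟨Y, Z, JY, JZ, t, ht⟩ := hEx X d (hJ.2.1.linear.mk' J) h4 hK hz
    exact hno Y Z JY JZ t ht

end Pool.Agent.Helper7.AFT
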