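import Pool.Agent.Helper7.AFT.Bal

/-!
Coordinates in a frame; vectors of the second eigenspace orthogonal to the line; expansion of
eigenvectors.
-/

namespace Pool.Agent.Helper7.AFT

open Module Pool.Agent.GPC Pool.Agent.Helper7 Pool.Agent.Helper39.AF

section

variable {X : AbVar} {J : X.H1 → X.H1} {z : ℂ} (F : Frame X J z)

lemma coord_t (i : Fin 4) (u : X.H1) : F.b.coord (i, true) u = X.pol (F.b (i, false)) u := by
  have h : F.b.coord (i, true) = (pData X).ψ (F.b (i, false)) := by
    apply F.b.ext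
    rintro ⟨j, ε⟩
    rw [Basis.coord_apply, Basis.repr_self, Finsupp.single_apply, pData_ψ]
    cases ε
    · rw [F.ff, if_neg (fun h => by simp at h)]
    · rw [F.ft]
      by_cases h : i = j
      · rw [if_pos h, if_pos (by rw [h])]
      · rw [if_neg h, if_neg]
        intro h'
        rw [Prod.mk.injEq] at h'
        exact h h'.1.symm
  rw [h, pData_ψ]

lemma coord_f (i : Fin 4) (u : X.H1) : F.b.coord (i, false) u = X.pol u (F.b (i, true)) := by
  have h : F.b.coord (i, false) = (pData X).ψ.flip (F.b (i, true)) := by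
    apply F.b.ext
    rintro ⟨j, ε⟩
    rw [Basis.coord_apply, Basis.repr_self, Finsupp.single_apply, LinearMap.flip_apply, pData_ψ]
    cases ε
    · rw [F.ft]
      by_cases h : j = i
      · rw [if_pos h, if_pos (by rw [h])]
      · rw [if_neg h, if_neg]
        intro h'
        rw [Prod.mk.injEq] at h'
        exact h h'.1
    · rw [F.tt, if_neg (fun h => by simp at h)]
  rw [h, LinearMap.flip_apply, pData_ψ]

/-- a vector of the second eigenspace orthogonal to the line is in the filtration -/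
lemma fil_of_perp_line {d : ℚ} (hJ : X.IsWeilStructure d J) (hz0 : z ≠ 0) (h : X.H1)
    (hh : J h = (-z) • h) (hp : X.pol (F.b (0, false)) h = 0) : X.IsFil h := by
  have h1 : ∀ i, F.b.coord (i, false) h = 0 := by
    intro i
    rw [coord_f]
    have h2 := weil_skew hJ h (F.b (i, true))
    rw [hh, F.Jt, neg_smul, neg_smul, neg_neg, ← neg_smul] at h2
    have h3 : X.pol ((-z) • h) (F.b (i, true)) = -z * X.pol h (F.b (i, true)) := by
      rw [← pData_ψ, ← pData_ψ, map_smul, LinearMap.smul_apply, smul_eq_mul]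
    have h4 : X.pol h (z • F.b (i, true)) = z * X.pol h (F.b (i, true)) := by
      rw [← pData_ψ, ← pData_ψ, map_smul, smul_eq_mul]
    rw [h3, h4] at h2
    have h5 : (2 * z) * X.pol h (F.b (i, true)) = 0 := by linear_combination -h2
    exact (mul_eq_zero.mp h5).resolve_left (mul_ne_zero two_ne_zero hz0)
  have h2 : h = ∑ i, F.b.coord (i, true) h • F.b (i, true) := by
    conv_lhs => rw [← F.b.sum_repr h]
    rw [Fintype.sum_prod_type]
    refine Finset.sum_congr rfl fun i _ => ?_
    rw [Fintype.sum_bool]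
    have h3 := h1 i
    rw [Basis.coord_apply] at h3
    rw [h3, zero_smul, add_zero]
    rfl
  have h3 : h ∈ filS X := by
    rw [h2]
    refine Submodule.sum_mem _ fun i _ => ?_
    by_cases hi : i = 0
    · subst hi
      rw [coord_t, hp, zero_smul]
      exact Submodule.zero_mem _
    · exact Submodule.smul_mem _ _ (F.fil_t i hi)
  exact h3

end

/-- eigenvectors in an adapted basis -/
lemma eigen_expand {Φ W : Type} [Fintype Φ] [Subsingleton Φ] [AddCommGroup W] [Module ℂ W]
    (b : Basis (Φ × Fin 4 × Bool) ℂ W) (J : W →ₗ[ℂ] W) {z : ℂ} (hz : z ≠ 0) (q : Φ) (ε : Bool)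
    (h1 : ∀ i, J (b (q, i, ε)) = z • b (q, i, ε)) (h2 : ∀ i, J (b (q, i, !ε)) = (-z) • b (q, i, !ε))
    (w : W) (hw : J w = z • w) : w = ∑ i, b.coord (q, i, ε) w • b (q, i, ε) := by
  obtain ⟨P, hP⟩ : ∃ P : W →ₗ[ℂ] W, ∀ w, P w = (2 * z)⁻¹ • (J w + z • w) :=
    ⟨(2 * z)⁻¹ • (J + z • LinearMap.id), fun _ => rfl⟩
  have hi : (2 * z)⁻¹ * (2 * z) = 1 := inv_mul_cancel₀ (mul_ne_zero two_ne_zero hz)
  have hP1 : ∀ w, J w = z • w → P w = w := by
    intro w hw
    have h3 : (2 * z)⁻¹ • (z • w + z • w) = ((2 * z)⁻¹ * (2 * z)) • w := by module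
    rw [hP, hw, h3, hi, one_smul]
  have hP2 : ∀ w, J w = (-z) • w → P w = 0 := by
    intro w hw
    rw [hP, hw]
    module
  have hs : w = ∑ i, (b.coord (q, i, ε) w • b (q, i, ε) + b.coord (q, i, !ε) w • b (q, i, !ε)) := by
    conv_lhs => rw [← b.sum_repr w]
    rw [Fintype.sum_prod_type, Fintype.sum_subsingleton _ q, Fintype.sum_prod_type]
    refine Finset.sum_congr rfl fun i _ => ?_
    rw [Fintype.sum_bool]
    cases ε
    · exact add_comm _ _
    · rfl
  conv_lhs => rw [← hP1 w hw, hs]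
  rw [map_sum]
  refine Finset.sum_congr rfl fun i _ => ?_
  rw [map_add, map_smul, map_smul, hP1 _ (h1 i), hP2 _ (h2 i), smul_zero, add_zero]

end Pool.Agent.Helper7.AFT
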