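import Pool.Agent.Helper12.Ball.M7
import Pool.Agent.Helper20.Ball.M9a

/-!
Exterior invariants of degree four of the rotations of a space of dimension four.
-/

open scoped ComplexConjugate

namespace Pool.Agent.Helper7.AFT

open Module Equiv NumberField Matrix Pool.Agent.Helper7 Pool.Agent.Ball

/-- a degree four form killed by the rotations whose values on the monomials with four different
sites vanish is a combination of products of the pairings -/
theorem span_of_odd {Φ W : Type} [Fintype Φ] [DecidableEq Φ] [Subsingleton Φ] [AddCommGroup W]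
    [Module ℂ W] (b : Basis (Φ × Fin 4 × Bool) ℂ W) (R : Φ → Fin 4 → Fin 4 → Module.End ℂ W)
    (hR : ∀ s i j, i ≠ j → ∀ (t : Φ) (l : Fin 4) (ε : Bool), R s i j (b (t, l, ε)) =
      if t = s ∧ l = i then - b (s, j, ε) else if t = s ∧ l = j then b (s, i, ε) else 0)
    (α : W [⋀^Fin (2 * 2)]→ₗ[ℂ] ℂ)
    (hα : ∀ s i j, i ≠ j → ∀ v : Fin (2 * 2) → W,
      ∑ r, α (Function.update v r (R s i j (v r))) = 0)
    (hodd : ∀ s : Fin (2 * 2) → Φ × Fin 4 × Bool, Function.Injective (fun r => (s r).2.1) →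
      α (fun r => b (s r)) = 0) :
    α ∈ Submodule.span ℂ {ω | ∃ f : Fin 2 → Φ, ω = wedge (fun a => beta b (f a))} := by
  classical
  apply M7.mem_span b α
  · intro s hs0
    have hs : Function.Injective s := by
      by_contra hs
      apply hs0
      apply AlternatingMap.map_eq_zero_of_not_injective
      intro h
      exact hs (fun x y hxy => h (congrArg b hxy))
    apply M7.paired s hs
    by_contra hx
    push Not at hx
    obtain ⟨x, hx⟩ := hx
    -- the sites are different
    have hinj : ¬ Function.Injective (fun r => (s r).2.1) := fun h => hs0 (hodd s h)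
    rw [Function.not_injective_iff] at hinj
    obtain ⟨r, r', hrr, hne⟩ := hinj
    have hrr' : (s r).2.1 = (s r').2.1 := hrr
    obtain ⟨q, j⟩ := x
    have hq : ∀ t : Φ, t = q := fun t => Subsingleton.elim _ _
    have hsign : (s r).2.2 ≠ (s r').2.2 := by
      intro h
      apply hne
      apply hs
      exact Prod.ext (Subsingleton.elim _ _) (Prod.ext hrr' h)
    -- the full site
    obtain ⟨i, hi⟩ : ∃ i, i = (s r).2.1 := ⟨_, rfl⟩
    have hfull : ∀ ε, ∃ t, s t = M7.dup (q, i) ε := by
      intro ε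
      have h1 : s r = M7.dup (q, i) (s r).2.2 := Prod.ext (hq _) (Prod.ext hi.symm rfl)
      have h2 : s r' = M7.dup (q, i) (s r').2.2 :=
        Prod.ext (hq _) (Prod.ext (hrr'.symm.trans hi.symm) rfl)
      cases h3 : (s r).2.2 <;> cases h4 : (s r').2.2 <;> rw [h3] at h1 hsign <;>
        rw [h4] at h2 hsign
      · exact absurd rfl hsign
      · cases ε
        · exact ⟨r, h1⟩
        · exact ⟨r', h2⟩
      · cases ε
        · exact ⟨r', h2⟩
        · exact ⟨r, h1⟩
      · exact absurd rfl hsign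
    have hij : j ≠ i := by
      rintro rfl
      rcases hx with ⟨-, h⟩ | ⟨h, -⟩
      · obtain ⟨t, ht⟩ := hfull true
        exact h t ht
      · obtain ⟨t, ht⟩ := hfull false
        exact h t ht
    apply hs0
    show M7.val b α s = 0
    rcases hx with ⟨⟨r₀, h0⟩, h1⟩ | ⟨h1, ⟨r₀, h0⟩⟩
    · obtain ⟨r₁, h3⟩ := hfull false
      obtain ⟨r₂, h4⟩ := hfull true
      exact M7.odd_full b R hR α hα s hs q j i hij false r₀ r₁ r₂ h0 h1 h3 h4
    · obtain ⟨r₁, h3⟩ := hfull true
      obtain ⟨r₂, h4⟩ := hfull false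
      exact M7.odd_full b R hR α hα s hs q j i hij true r₀ r₁ r₂ h0 h1 h3 h4
  · intro p q hp hq h
    exact M7.places b R hR α hα p q hp hq h

/-- sorting of signs -/
lemma sort_signs : ∀ (g : Fin 4 → Bool) (ε : Bool),
    (∑ r, (if g r = ε then (1 : ℤ) else -1)) = 0 →
    ∃ a b c e : Fin 4, (g a = ε ∧ g b = ε ∧ g c = !ε ∧ g e = !ε) ∧ a ≠ b ∧ a ≠ c ∧ a ≠ e ∧ b ≠ c ∧
      b ≠ e ∧ c ≠ e := by
  decide

end Pool.Agent.Helper7.AFT
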